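import Pool.Agent.DPoly.Tab

/-!
# The input word
-/

namespace Pool.Agent.DPoly

open Finset

/-- The number of binary digits, `len 0 = 1`. -/
def len (a : ℕ) : ℕ := Nat.log 2 a + 1

/-- The binary digits, most significant digit first; `0` is written `0`. -/
def digs (a : ℕ) : List Bool := (List.range (len a)).reverse.map a.testBit

/-- The input word of a tuple: each number is written in binary, followed by the separator
`none`. -/
def word {n : ℕ} (a : Fin n → ℕ) : List (Option Bool) :=
  (List.ofFn fun i => (digs (a i)).map some ++ [none]).flatten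

theorem len_pos (a : ℕ) : 1 ≤ len a := Nat.succ_le_succ (Nat.zero_le _)

theorem lt_two_pow_len (a : ℕ) : a < 2 ^ len a := Nat.lt_pow_succ_log_self one_lt_two a

theorem len_le_of_lt {a N : ℕ} (h : a < 2 ^ N) (hN : 1 ≤ N) : len a ≤ N := by
  unfold len
  rcases Nat.eq_zero_or_pos a with rfl | ha
  · simpa using hN
  · have := Nat.log_lt_of_lt_pow ha.ne' h
    omega

theorem len_mono {a b : ℕ} (h : a ≤ b) : len a ≤ len b :=
  len_le_of_lt (lt_of_le_of_lt h (lt_two_pow_len b)) (len_pos b)

theorem digs_length (a : ℕ) : (digs a).length = len a := by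
  simp [digs]

theorem digs_getElem (a k : ℕ) (hk : k < (digs a).length) :
    (digs a)[k] = a.testBit (len a - 1 - k) := by
  simp [digs]

theorem val_digs (a : ℕ) :
    val (fun c => decide (c = some true)) ((digs a).map some) = a := by
  apply Nat.eq_of_testBit_eq
  intro k
  have hl : ((digs a).map some).length = len a := by rw [List.length_map, digs_length]
  by_cases hk : k < len a
  · rw [val_testBit _ _ _ (by rw [hl]; exact hk), hl,
      List.getI_eq_getElem _ (by rw [hl]; omega), List.getElem_map, digs_getElem,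
      show len a - 1 - (len a - 1 - k) = k by omega]
    simp
  · rw [val_testBit_ge _ _ _ (by rw [hl]; exact not_lt.1 hk)]
    symm
    apply Nat.testBit_lt_two_pow
    exact lt_of_lt_of_le (lt_two_pow_len a) (Nat.pow_le_pow_right (by norm_num) (not_lt.1 hk))

theorem val_sep (a : ℕ) : val (fun c => decide (c = none)) ((digs a).map some) = 0 := by
  apply Nat.eq_of_testBit_eq
  intro k
  have hl : ((digs a).map some).length = len a := by rw [List.length_map, digs_length]
  rw [Nat.zero_testBit]
  by_cases hk : k < len a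
  · rw [val_testBit _ _ _ (by rw [hl]; exact hk), hl,
      List.getI_eq_getElem _ (by rw [hl]; omega), List.getElem_map]
    simp
  · exact val_testBit_ge _ _ _ (by rw [hl]; exact not_lt.1 hk)

/-- the block of one number -/
def block (a : ℕ) : List (Option Bool) := (digs a).map some ++ [none]

theorem block_length (a : ℕ) : (block a).length = len a + 1 := by
  simp [block, digs_length]

theorem val_block (a : ℕ) : val (fun c => decide (c = some true)) (block a) = 2 * a ∧
    val (fun c => decide (c = none)) (block a) = 1 := by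
  unfold block
  rw [val_snoc, val_snoc, val_digs, val_sep, Nat.bit_val, Nat.bit_val]
  constructor <;> simp

theorem word_succ {n : ℕ} (a : Fin (n + 1) → ℕ) :
    word a = block (a 0) ++ word (fun i => a i.succ) := by
  unfold word
  rw [List.ofFn_succ, List.flatten_cons]
  rfl

theorem word_length {n : ℕ} (a : Fin n → ℕ) : (word a).length = ∑ i, (len (a i) + 1) := by
  induction n with
  | zero => simp [word]
  | succ n ih => rw [word_succ, List.length_append, block_length, ih, Fin.sum_univ_succ]

theorem word_vals {n : ℕ} (a : Fin n → ℕ) (W : Fin (n + 1) → ℕ) (hW1 : W (Fin.last n) = 1)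
    (hW : ∀ i : Fin n, W i.castSucc = 2 * 2 ^ len (a i) * W i.succ) :
    W 0 = 2 ^ (word a).length ∧
    val (fun c => decide (c = some true)) (word a) = ∑ i : Fin n, 2 * a i * W i.succ ∧
    val (fun c => decide (c = none)) (word a) = ∑ i : Fin n, W i.succ := by
  induction n with
  | zero =>
    refine ⟨?_, ?_, ?_⟩
    · simpa [word] using hW1
    · simp [word, val_nil]
    · simp [word, val_nil]
  | succ n ih =>
    obtain ⟨h1, h2, h3⟩ := ih (fun i => a i.succ) (fun i => W i.succ) hW1 (fun i => by
      have := hW i.succ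
      rw [← Fin.succ_castSucc] at this
      exact this)
    have h0 := hW 0
    rw [Fin.castSucc_zero] at h0
    rw [word_succ, val_append, val_append, (val_block _).1, (val_block _).2, Fin.sum_univ_succ,
      Fin.sum_univ_succ, ← h1, h2, h3, List.length_append, block_length, pow_add, ← h1]
    refine ⟨?_, rfl, by ring⟩
    rw [h0, pow_succ]
    ring

/-- The read-outs in terms of the numbers. -/
def InpP {n : ℕ} (a : Fin n → ℕ) (E0 : ℕ) (t : Fin 4 → ℕ) : Prop :=
  ∃ (P : Fin n → ℕ) (W : Fin (n + 1) → ℕ),
    (∀ i, P i ∣ E0 ∧ a i < P i ∧ (P i = 2 ∨ P i ≤ 2 * a i)) ∧ W (Fin.last n) = 1 ∧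
    (∀ i : Fin n, W i.castSucc = 2 * P i * W i.succ) ∧
    t 0 = ∑ i : Fin n, 2 * a i * W i.succ ∧ t 1 = ∑ i : Fin n, W i.succ ∧ t 2 + 1 = W 0 ∧
    t 3 = 1

theorem pow_len_iff {a N : ℕ} (h : len a ≤ N) (P : ℕ) :
    (P ∣ 2 ^ N ∧ a < P ∧ (P = 2 ∨ P ≤ 2 * a)) ↔ P = 2 ^ len a := by
  constructor
  · rintro ⟨h1, h2, h3⟩
    obtain ⟨j, -, rfl⟩ := (Nat.dvd_prime_pow Nat.prime_two).1 h1
    have hj : len a = j := by
      unfold len
      rcases h3 with h3 | h3
      · have hj : j = 1 := Nat.pow_right_injective le_rfl (by simpa using h3)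
        subst hj
        have : Nat.log 2 a = 0 := Nat.log_of_lt (by simpa using h2)
        omega
      · have ha : a ≠ 0 := by
          rintro rfl
          have := Nat.one_le_two_pow (n := j)
          omega
        have hj0 : j ≠ 0 := by
          rintro rfl
          simp at h2
          exact ha h2
        obtain ⟨i, rfl⟩ := Nat.exists_eq_succ_of_ne_zero hj0
        have : Nat.log 2 a = i := by
          rw [Nat.log_eq_iff (Or.inr ⟨by norm_num, ha⟩)]
          refine ⟨?_, h2⟩
          rw [Nat.succ_eq_add_one, pow_succ] at h3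
          omega
        omega
    rw [hj]
  · rintro rfl
    refine ⟨pow_dvd_pow 2 h, lt_two_pow_len a, ?_⟩
    unfold len
    rcases Nat.eq_zero_or_pos a with rfl | ha
    · left; simp
    · right
      have := Nat.pow_log_le_self 2 ha.ne'
      rw [pow_succ]
      omega

theorem inpP_iff {n N : ℕ} (a : Fin n → ℕ) (ha : ∀ i, len (a i) ≤ N) (t : Fin 4 → ℕ) :
    InpP a (2 ^ N) t ↔ t = ro (word a) := by
  have hro : ∀ W : Fin (n + 1) → ℕ, W (Fin.last n) = 1 →
      (∀ i : Fin n, W i.castSucc = 2 * 2 ^ len (a i) * W i.succ) →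
      ro (word a) = ![∑ i : Fin n, 2 * a i * W i.succ, ∑ i : Fin n, W i.succ, W 0 - 1, 1] := by
    intro W hW1 hW
    obtain ⟨h1, h2, h3⟩ := word_vals a W hW1 hW
    unfold ro
    rw [h2, h3, val_true, h1]
  constructor
  · rintro ⟨P, W, h1, h2, h3, h4, h5, h6, h7⟩
    have hP : ∀ i, P i = 2 ^ len (a i) := fun i => (pow_len_iff (ha i) (P i)).1 (h1 i)
    rw [hro W h2 fun i => by rw [h3, hP]]
    funext r
    fin_cases r
    · exact h4
    · exact h5
    · change t 2 = W 0 - 1
      omega
    · exact h7
  · rintro rfl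
    let W : Fin (n + 1) → ℕ := fun i => ∏ j : Fin n, if i.val ≤ j.val then 2 * 2 ^ len (a j) else 1
    have hW1 : W (Fin.last n) = 1 := by
      simp only [W]
      refine Finset.prod_eq_one fun j _ => ?_
      rw [if_neg]
      rw [Fin.val_last]
      omega
    have hW : ∀ i : Fin n, W i.castSucc = 2 * 2 ^ len (a i) * W i.succ := by
      intro i
      simp only [W, Fin.val_castSucc, Fin.val_succ]
      rw [← Finset.mul_prod_erase _ _ (Finset.mem_univ i),
        ← Finset.mul_prod_erase (f := fun j : Fin n => if i.val + 1 ≤ j.val then 2 * 2 ^ len (a j)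
          else 1) _ (Finset.mem_univ i), if_pos le_rfl, if_neg (by omega), one_mul]
      congr 1
      refine Finset.prod_congr rfl fun j hj => ?_
      have hne : j ≠ i := (Finset.mem_erase.1 hj).1
      have hne' : j.val ≠ i.val := fun h => hne (Fin.ext h)
      by_cases h : i.val ≤ j.val
      · rw [if_pos h, if_pos (by omega)]
      · rw [if_neg h, if_neg (by omega)]
    have h0 : 0 < W 0 := by
      simp only [W]
      exact Finset.prod_pos fun j _ => by split_ifs <;> positivity
    have hr := hro W hW1 hW
    refine ⟨fun i => 2 ^ len (a i), W, fun i => (pow_len_iff (ha i) _).2 rfl, hW1, hW, ?_, ?_, ?_,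
      ?_⟩
    · rw [hr]; rfl
    · rw [hr]; rfl
    · rw [hr]
      change W 0 - 1 + 1 = W 0
      omega
    · rw [hr]; rfl

end Pool.Agent.DPoly
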