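import Pool.Agent.DPoly.Crt

/-!
# Constraint systems with one local constraint per variable, and arrays

A constraint system has variables `z i ∈ Fin κ`, one constraint per variable, which involves the
variable, a constant and three neighbours, and finitely many linear read-outs.
-/

namespace Pool.Agent.DPoly

open Finset

open Classical in
/-- A polynomial that vanishes at a point of `{0, …, κ-1}^5` iff `ρ` holds there. -/
noncomputable def Phi {R : Type} [CommRing R] (κ : ℕ) (ρ : (Fin 5 → Fin κ) → Prop)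
    (x : Fin 5 → R) : R :=
  ∑ τ ∈ univ.filter (fun τ : Fin 5 → Fin κ => ¬ ρ τ), ∏ k, ∏ j ∈ univ.erase (τ k),
    (x k - ((j : ℕ) : R)) ^ 2

/-- A polynomial that vanishes exactly at `0, …, κ-1`. -/
noncomputable def Rg {R : Type} [CommRing R] (κ : ℕ) (x : R) : R :=
  ∏ j : Fin κ, (x - ((j : ℕ) : R))

section phi

variable {κ : ℕ} {ρ : (Fin 5 → Fin κ) → Prop}

theorem Phi_nonneg (x : Fin 5 → ℤ) : 0 ≤ Phi κ ρ x := by
  unfold Phi
  exact sum_nonneg fun τ _ => prod_nonneg fun k _ => prod_nonneg fun j _ => sq_nonneg _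

theorem Phi_eq_zero_iff (σ : Fin 5 → Fin κ) :
    Phi κ ρ (fun k => ((σ k : ℕ) : ℤ)) = 0 ↔ ρ σ := by
  classical
  unfold Phi
  rw [sum_eq_zero_iff_of_nonneg
    (fun τ _ => prod_nonneg fun k _ => prod_nonneg fun j _ => sq_nonneg _)]
  constructor
  · intro h
    by_contra hρ
    have h1 := h σ (by simp [hρ])
    rw [prod_eq_zero_iff] at h1
    obtain ⟨k, _, h2⟩ := h1
    rw [prod_eq_zero_iff] at h2
    obtain ⟨j, hj, h3⟩ := h2
    have h4 : ((σ k : ℕ) : ℤ) - ((j : ℕ) : ℤ) = 0 := pow_eq_zero_iff (by norm_num) |>.1 h3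
    have h5 : (σ k : ℕ) = j := by exact_mod_cast sub_eq_zero.1 h4
    exact (mem_erase.1 hj).1 (Fin.ext h5).symm
  · intro h τ hτ
    have hne : τ ≠ σ := by
      rintro rfl
      exact (mem_filter.1 hτ).2 h
    obtain ⟨k, hk⟩ := Function.ne_iff.1 hne
    refine prod_eq_zero (mem_univ k) (prod_eq_zero (i := σ k) ?_ ?_)
    · exact mem_erase.2 ⟨fun h' => hk h'.symm, mem_univ _⟩
    · simp

theorem Phi_cast (p : ℕ) (x : Fin 5 → ℤ) :
    ((Phi κ ρ x : ℤ) : ZMod p) = Phi κ ρ (fun k => ((x k : ℤ) : ZMod p)) := by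
  unfold Phi
  push_cast
  rfl

theorem Rg_cast (p : ℕ) (x : ℤ) : ((Rg κ x : ℤ) : ZMod p) = Rg κ ((x : ℤ) : ZMod p) := by
  unfold Rg
  push_cast
  rfl

theorem Phi_bound (κ : ℕ) (ρ : (Fin 5 → Fin κ) → Prop) :
    ∃ K : ℕ, ∀ σ : Fin 5 → Fin κ, Phi κ ρ (fun k => ((σ k : ℕ) : ℤ)) < K := by
  classical
  refine ⟨(∑ σ : Fin 5 → Fin κ, Phi κ ρ (fun k => ((σ k : ℕ) : ℤ))).toNat + 1, fun σ => ?_⟩
  have h1 : Phi κ ρ (fun k => ((σ k : ℕ) : ℤ)) ≤
      ∑ σ : Fin 5 → Fin κ, Phi κ ρ (fun k => ((σ k : ℕ) : ℤ)) :=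
    single_le_sum (f := fun σ : Fin 5 → Fin κ => Phi κ ρ (fun k => ((σ k : ℕ) : ℤ)))
      (fun _ _ => Phi_nonneg _) (mem_univ σ)
  have h2 := Int.self_le_toNat (∑ σ : Fin 5 → Fin κ, Phi κ ρ (fun k => ((σ k : ℕ) : ℤ)))
  push_cast
  linarith

end phi

/-- Constraint systems. -/
structure Csp (κ q : ℕ) where
  /-- the index type of the variables (and of the constraints) -/
  ι : Type
  fin : Fintype ι
  dec : DecidableEq ι
  /-- the constants of the constraints -/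
  code : ι → Fin κ
  /-- the neighbours -/
  nb : Fin 3 → ι → ι
  /-- the weights of the read-outs -/
  wt : Fin q → ι → ℕ

attribute [instance] Csp.fin Csp.dec

/-- `t` is the read-out of a solution of the constraint system. -/
def Csp.Sat {κ q : ℕ} (ρ : (Fin 5 → Fin κ) → Prop) (I : Csp κ q) (t : Fin q → ℕ) : Prop :=
  ∃ z : I.ι → Fin κ, (∀ i, ρ ![I.code i, z i, z (I.nb 0 i), z (I.nb 1 i), z (I.nb 2 i)]) ∧
    ∀ r, ∑ i, (z i : ℕ) * I.wt r i = t r

/-- The arithmetical counterpart. -/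
def Arr {κ q : ℕ} (ρ : (Fin 5 → Fin κ) → Prop) (M N0 C H0 : ℕ) (Hn : Fin 3 → ℕ)
    (J : Fin q → ℕ) (t : Fin q → ℕ) (Z : ℕ) (A : Fin 3 → ℕ) : Prop :=
  (M : ℤ) ∣ Rg κ (Z : ℤ) ∧ (∀ k, (M : ℤ) ∣ Rg κ (A k : ℤ)) ∧
    (M : ℤ) ∣ Phi κ ρ ![(C : ℤ), (Z : ℤ), (A 0 : ℤ), (A 1 : ℤ), (A 2 : ℤ)] ∧
    (∀ k, A k * H0 % M % N0 = Z * Hn k % M % N0) ∧ ∀ r, Z * J r % M % N0 = t r

theorem digits_lt (κ : ℕ) : ∀ (s : ℕ) (a : Fin s → ℕ), (∀ i, a i < κ) →
    ∑ i, a i * κ ^ (i : ℕ) < κ ^ s := by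
  intro s
  induction s with
  | zero => intro a _; simp
  | succ s ih =>
    intro a ha
    rw [Fin.sum_univ_castSucc]
    have h1 := ih (fun i => a i.castSucc) (fun i => ha _)
    simp only [Fin.val_castSucc, Fin.val_last]
    have h2 : a (Fin.last s) * κ ^ s ≤ (κ - 1) * κ ^ s :=
      Nat.mul_le_mul_right _ (by have := ha (Fin.last s); omega)
    have hκ : 1 ≤ κ := by have := ha (Fin.last s); omega
    have h3 : κ ^ (s + 1) = (κ - 1) * κ ^ s + κ ^ s := by
      have : κ = (κ - 1) + 1 := by omega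
      calc κ ^ (s + 1) = κ ^ s * κ := pow_succ _ _
        _ = κ ^ s * ((κ - 1) + 1) := by rw [← this]
        _ = _ := by ring
    omega

theorem csp_arr {κ q : ℕ} (ρ : (Fin 5 → Fin κ) → Prop) (hκ : 1 ≤ κ) {K : ℕ}
    (hK : ∀ σ : Fin 5 → Fin κ, Phi κ ρ (fun k => ((σ k : ℕ) : ℤ)) < K)
    (I : Csp κ q) (E : ℕ) (hE : 1 ≤ E) (hE1 : κ ^ Fintype.card I.ι ≤ 2 ^ E)
    (hE2 : ∀ r, κ * ∑ i, I.wt r i < 2 ^ E) :
    ∃ (M C H0 : ℕ) (Hn : Fin 3 → ℕ) (J : Fin q → ℕ), 0 < M ∧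
      M ≤ (2 ^ Fintype.card I.ι * (Fintype.card I.ι * (κ * 2 ^ E) + K + κ + 2)) ^
        Fintype.card I.ι ∧
      C < M ∧ H0 < M ∧ (∀ k, Hn k < M) ∧ (∀ r, J r < M) ∧
      ∀ t, (I.Sat ρ t → ∃ Z A, Z < M ∧ (∀ k, A k < M) ∧ Arr ρ M (2 ^ E) C H0 Hn J t Z A) ∧
        ∀ Z A, Arr ρ M (2 ^ E) C H0 Hn J t Z A → I.Sat ρ t := by
  classical
  set s := Fintype.card I.ι with hs
  set B := s * (κ * 2 ^ E) + K + κ + 2 with hB
  obtain ⟨p0, hinj, hp0⟩ := exists_primes s B (by omega)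
  let e : I.ι ≃ Fin s := Fintype.equivFin I.ι
  let p : I.ι → ℕ := fun i => p0 (e i)
  have hprime : ∀ i, (p i).Prime := fun i => (hp0 _).1
  have hBp : ∀ i, B < p i := fun i => (hp0 _).2.1
  have hpB : ∀ i, p i ≤ 2 ^ s * B := fun i => (hp0 _).2.2
  have hco : ∀ i j, i ≠ j → Nat.Coprime (p i) (p j) := by
    intro i j hij
    refine (Nat.coprime_primes (hprime i) (hprime j)).2 fun h => hij ?_
    exact e.injective (hinj h)
  have hκp : ∀ i, κ < p i := fun i => by have := hBp i; omega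
  have h2 : 1 < 2 ^ E := Nat.one_lt_two_pow (by omega)
  have hcoE : ∀ i, Nat.Coprime (p i) (2 ^ E) := by
    intro i
    refine Nat.Coprime.pow_right _ ((Nat.coprime_primes (hprime i) Nat.prime_two).2 ?_)
    have := hBp i
    omega
  have hbig : ∀ i, Fintype.card I.ι * (κ * 2 ^ E) < p i := fun i => by
    have := hBp i
    rw [← hs]
    omega
  have hMpos : 0 < ∏ i, p i := prod_pos fun i _ => (hprime i).pos
  set M := ∏ i, p i with hM
  -- the functionals
  obtain ⟨H0, hH0, hH0'⟩ := exists_functional p (2 ^ E) κ h2 hκ hcoE hbig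
    (fun i => κ ^ (e i : ℕ))
  have hHn := fun k : Fin 3 => exists_functional p (2 ^ E) κ h2 hκ hcoE hbig
    (fun i => ∑ h ∈ univ.filter (fun h => I.nb k h = i), κ ^ (e h : ℕ))
  choose Hn hHn hHn' using hHn
  have hJ := fun r : Fin q => exists_functional p (2 ^ E) κ h2 hκ hcoE hbig (I.wt r)
  choose J hJ hJ' using hJ
  obtain ⟨C, hC, hC'⟩ := exists_crt p hco (fun i => (I.code i : ℕ))
    (fun i => lt_trans (I.code i).2 (hκp i))
  have hMdvd : ∀ x : ℤ, (∀ i, ((p i : ℕ) : ℤ) ∣ x) → (M : ℤ) ∣ x := by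
    intro x hx
    rw [hM]
    push_cast
    refine prod_dvd_of_coprime ?_ fun i _ => hx i
    intro i _ j _ hij
    exact Nat.isCoprime_iff_coprime.2 (hco i j hij)
  have hdvdM : ∀ (x : ℤ) i, (M : ℤ) ∣ x → ((p i : ℕ) : ℤ) ∣ x := by
    intro x i hx
    refine dvd_trans ?_ hx
    exact_mod_cast dvd_prod_of_mem p (mem_univ i)
  -- residues in the range
  have hrange : ∀ (x : ℕ) i, x % p i < κ ↔ ((p i : ℕ) : ℤ) ∣ Rg κ (x : ℤ) := by
    intro x i
    have hpi : Prime ((p i : ℕ) : ℤ) := Nat.prime_iff_prime_int.1 (hprime i)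
    unfold Rg
    rw [hpi.dvd_finset_prod_iff]
    constructor
    · intro h
      refine ⟨⟨x % p i, h⟩, mem_univ _, ?_⟩
      have := Nat.div_add_mod x (p i)
      refine ⟨(x / p i : ℕ), ?_⟩
      push_cast
      have h3 : ((x : ℕ) : ℤ) = (p i : ℤ) * ((x / p i : ℕ) : ℤ) + ((x % p i : ℕ) : ℤ) := by
        exact_mod_cast this.symm
      push_cast at h3
      linarith
    · rintro ⟨j, _, hj⟩
      have h3 : (x : ℤ) ≡ (j : ℕ) [ZMOD (p i : ℕ)] := (Int.modEq_iff_dvd.2 (by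
        have := (dvd_neg (a := ((p i : ℕ) : ℤ))).2 hj
        simpa using this))
      have h4 : x ≡ (j : ℕ) [MOD p i] := Int.natCast_modEq_iff.1 h3
      have h5 : x % p i = (j : ℕ) % p i := h4
      rw [h5, Nat.mod_eq_of_lt (lt_trans j.2 (hκp i))]
      exact j.2
  -- Phi modulo the primes
  have hphi : ∀ (x : Fin 5 → ℕ) (σ : Fin 5 → Fin κ) i, (∀ k, x k % p i = σ k) →
      (((p i : ℕ) : ℤ) ∣ Phi κ ρ (fun k => (x k : ℤ)) ↔ ρ σ) := by
    intro x σ i hx
    rw [← Phi_eq_zero_iff (ρ := ρ) σ]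
    have hc : (((Phi κ ρ (fun k => (x k : ℤ)) : ℤ)) : ZMod (p i)) =
        ((Phi κ ρ (fun k => ((σ k : ℕ) : ℤ)) : ℤ) : ZMod (p i)) := by
      rw [Phi_cast, Phi_cast]
      congr 1
      funext k
      have : ((x k : ℕ) : ZMod (p i)) = ((σ k : ℕ) : ZMod (p i)) := by
        rw [← hx k]
        simp
      exact_mod_cast this
    rw [← ZMod.intCast_zmod_eq_zero_iff_dvd _ (p i), hc, ZMod.intCast_zmod_eq_zero_iff_dvd]
    constructor
    · intro h
      by_contra h0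
      have h1 := Int.le_of_dvd (lt_of_le_of_ne (Phi_nonneg _) (Ne.symm h0)) h
      have h3 := hK σ
      have h4 := hBp i
      have h5 : (K : ℤ) ≤ (p i : ℤ) := by exact_mod_cast (by omega : K ≤ p i)
      linarith
    · intro h
      rw [h]
      exact dvd_zero _
  -- the wiring sums
  have hwire : ∀ (k : Fin 3) (z : I.ι → ℕ),
      ∑ i, z i * ∑ h ∈ univ.filter (fun h => I.nb k h = i), κ ^ (e h : ℕ) =
        ∑ h, z (I.nb k h) * κ ^ (e h : ℕ) := by
    intro k z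
    simp_rw [mul_sum]
    rw [← sum_fiberwise (s := (univ : Finset I.ι)) (g := fun h => I.nb k h)
      (f := fun h => z (I.nb k h) * κ ^ (e h : ℕ))]
    refine sum_congr rfl fun i _ => sum_congr rfl fun h hh => ?_
    rw [(mem_filter.1 hh).2]
  have hre : ∀ a : I.ι → ℕ, ∑ h, a h * κ ^ (e h : ℕ) =
      ∑ i : Fin s, a (e.symm i) * κ ^ (i : ℕ) := by
    intro a
    rw [← Equiv.sum_comp e.symm]
    refine sum_congr rfl fun i _ => ?_
    rw [Equiv.apply_symm_apply]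
  have hlt : ∀ a : I.ι → ℕ, (∀ i, a i < κ) → ∑ h, a h * κ ^ (e h : ℕ) < 2 ^ E := by
    intro a ha
    rw [hre]
    exact lt_of_lt_of_le (digits_lt κ s _ fun i => ha _) hE1
  have hout : ∀ (r : Fin q) (z : I.ι → ℕ), (∀ i, z i < κ) → ∑ i, z i * I.wt r i < 2 ^ E := by
    intro r z hz
    refine lt_of_le_of_lt ?_ (hE2 r)
    rw [mul_sum]
    exact sum_le_sum fun i _ => Nat.mul_le_mul_right _ (hz i).le
  refine ⟨M, C, H0, Hn, J, hMpos, ?_, hC, hH0, hHn, hJ, fun t => ⟨?_, ?_⟩⟩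
  · calc M ≤ ∏ _i : I.ι, (2 ^ s * B) := prod_le_prod' fun i _ => hpB i
      _ = (2 ^ s * B) ^ s := by rw [prod_const, card_univ]
  · rintro ⟨z, hz, ht⟩
    obtain ⟨Z, hZ, hZ'⟩ := exists_crt p hco (fun i => (z i : ℕ))
      (fun i => lt_trans (z i).2 (hκp i))
    have hA := fun k : Fin 3 => exists_crt p hco (fun i => (z (I.nb k i) : ℕ))
      (fun i => lt_trans (z _).2 (hκp i))
    choose A hA hA' using hA
    refine ⟨Z, A, hZ, hA, ?_, ?_, ?_, ?_, ?_⟩
    · exact hMdvd _ fun i => (hrange Z i).1 (by rw [hZ']; exact (z i).2)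
    · exact fun k => hMdvd _ fun i => (hrange (A k) i).1 (by rw [hA']; exact (z _).2)
    · refine hMdvd _ fun i => ?_
      have h3 := (hphi ![C, Z, A 0, A 1, A 2]
        ![I.code i, z i, z (I.nb 0 i), z (I.nb 1 i), z (I.nb 2 i)] i (by
          intro k
          fin_cases k
          · exact hC' i
          · exact hZ' i
          · exact hA' 0 i
          · exact hA' 1 i
          · exact hA' 2 i)).2 (hz i)
      convert h3 using 2
      funext k
      fin_cases k <;> rfl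
    · intro k
      rw [hH0' (A k) (fun i => by rw [hA']; exact (z _).2),
        hHn' k Z (fun i => by rw [hZ']; exact (z i).2)]
      simp_rw [hA', hZ']
      rw [hwire k (fun i => (z i : ℕ))]
    · intro r
      rw [hJ' r Z (fun i => by rw [hZ']; exact (z i).2)]
      simp_rw [hZ']
      rw [Nat.mod_eq_of_lt (hout r _ fun i => (z i).2)]
      exact ht r
  · rintro Z A ⟨h1, h3, h4, h5, h6⟩
    have hZr : ∀ i, Z % p i < κ := fun i => (hrange Z i).2 (hdvdM _ i h1)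
    have hAr : ∀ k i, A k % p i < κ := fun k i => (hrange (A k) i).2 (hdvdM _ i (h3 k))
    have hAZ : ∀ k i, A k % p i = Z % p (I.nb k i) := by
      intro k
      have h7 := h5 k
      rw [hH0' (A k) (hAr k), hHn' k Z hZr, hwire k (fun i => Z % p i),
        Nat.mod_eq_of_lt (hlt _ (hAr k)), Nat.mod_eq_of_lt (hlt _ fun i => hZr _),
        hre (fun i => A k % p i), hre (fun h => Z % p (I.nb k h))] at h7
      have h8 := digits_unique κ s _ _ (fun i => hAr k _) (fun i => hZr _) h7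
      intro i
      have h9 := congrFun h8 (e i)
      simpa using h9
    refine ⟨fun i => ⟨Z % p i, hZr i⟩, fun i => ?_, fun r => ?_⟩
    · refine (hphi ![C, Z, A 0, A 1, A 2] _ i ?_).1 ?_
      · intro k
        fin_cases k
        · exact hC' i
        · rfl
        · exact hAZ 0 i
        · exact hAZ 1 i
        · exact hAZ 2 i
      · have h7 := hdvdM _ i h4
        convert h7 using 2
        funext k
        fin_cases k <;> rfl
    · have h7 := h6 r
      rw [hJ' r Z hZr, Nat.mod_eq_of_lt (hout r _ hZr)] at h7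
      exact h7

end Pool.Agent.DPoly
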