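import Pool.Agent.DPoly.Dio
import Pool.Agent.DPoly.Csp

/-!
# Residues, and the arithmetical constraint system, are Diophantine
-/

namespace Pool.Agent.DPoly

open Finset

section

variable {σ : Type}

/-- Natural number valued polynomial functions. -/
def NPoly (F : (σ → ℕ) → ℕ) : Prop := PolyFun (fun v => (F v : ℤ))

theorem NPoly.const (c : ℕ) : NPoly (fun _ : σ → ℕ => c) := PolyFun.const (c : ℤ)

theorem NPoly.coord (i : σ) : NPoly (fun v : σ → ℕ => v i) := PolyFun.coord i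

theorem NPoly.add {F G : (σ → ℕ) → ℕ} (hF : NPoly F) (hG : NPoly G) :
    NPoly (fun v => F v + G v) := by
  have h := PolyFun.add hF hG
  unfold NPoly
  push_cast
  exact h

theorem NPoly.mul {F G : (σ → ℕ) → ℕ} (hF : NPoly F) (hG : NPoly G) :
    NPoly (fun v => F v * G v) := by
  have h := PolyFun.mul hF hG
  unfold NPoly
  push_cast
  exact h

theorem NPoly.sum {κ : Type} (s : Finset κ) {F : κ → (σ → ℕ) → ℕ}
    (h : ∀ k ∈ s, NPoly (F k)) : NPoly (fun v => ∑ k ∈ s, F k v) := by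
  have h := PolyFun.sum s h
  unfold NPoly
  push_cast
  exact h

theorem NPoly.bound [Fintype σ] {F : (σ → ℕ) → ℕ} (hF : NPoly F) :
    ∃ e : ℕ, ∀ v, F v ≤ (2 + ∑ i, v i) ^ e := by
  obtain ⟨e, he⟩ := PolyFun.bound hF
  refine ⟨e, fun v => ?_⟩
  have h := (le_abs_self _).trans (he v)
  exact_mod_cast h

variable [Fintype σ]

theorem Dio.natEq {F G : (σ → ℕ) → ℕ} (hF : NPoly F) (hG : NPoly G) :
    Dio (fun v => F v = G v) := (Dio.eq hF hG).congr fun v => by exact_mod_cast Iff.rfl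

theorem Dio.natLt {F G : (σ → ℕ) → ℕ} (hF : NPoly F) (hG : NPoly G) :
    Dio (fun v => F v < G v) := (Dio.lt hF hG).congr fun v => by exact_mod_cast Iff.rfl

theorem Dio.natLe {F G : (σ → ℕ) → ℕ} (hF : NPoly F) (hG : NPoly G) :
    Dio (fun v => F v ≤ G v) := (Dio.le hF hG).congr fun v => by exact_mod_cast Iff.rfl

theorem Dio.natDvd {F G : (σ → ℕ) → ℕ} (hF : NPoly F) (hG : NPoly G) :
    Dio (fun v => F v ∣ G v) := (Dio.dvd hF hG).congr fun v => by exact_mod_cast Iff.rfl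

theorem Dio.mod {F m t : (σ → ℕ) → ℕ} (hF : NPoly F) (hm : NPoly m) (ht : NPoly t) :
    Dio (fun v => 0 < m v ∧ F v % m v = t v) := by
  refine ((Dio.natLt (NPoly.const 0) hm).and ((Dio.natLt ht hm).and
    (Dio.dvd hm (PolyFun.sub hF ht)))).congr fun v => ?_
  constructor
  · rintro ⟨h0, h1, h2⟩
    refine ⟨h0, ?_⟩
    have h3 : (F v : ℤ) % (m v : ℤ) = (t v : ℤ) % (m v : ℤ) := ((Int.modEq_iff_dvd.2 h2).symm : _)
    have h4 : F v % m v = t v % m v := by exact_mod_cast h3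
    rw [h4, Nat.mod_eq_of_lt h1]
  · rintro ⟨h0, h1⟩
    refine ⟨h0, ?_, ?_⟩
    · rw [← h1]
      exact Nat.mod_lt _ h0
    · rw [← h1]
      push_cast
      exact Int.dvd_self_sub_emod

/-- Iterated residues. -/
theorem Dio.modmod {F m n t : (σ → ℕ) → ℕ} (hF : NPoly F) (hm : NPoly m) (hn : NPoly n)
    (ht : NPoly t) : Dio (fun v => 0 < m v ∧ 0 < n v ∧ F v % m v % n v = t v) := by
  obtain ⟨e, he⟩ := hm.bound
  have hc : ∀ {G : (σ → ℕ) → ℕ}, NPoly G →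
      NPoly (fun v : σ ⊕ Unit → ℕ => G (fun i => v (.inl i))) := fun hG => PolyFun.comp hG Sum.inl
  have h := Dio.exs (τ := Unit) (Q := fun v : σ ⊕ Unit → ℕ =>
    (0 < m (fun i => v (.inl i)) ∧ F (fun i => v (.inl i)) % m (fun i => v (.inl i)) = v (.inr ())) ∧
    (0 < n (fun i => v (.inl i)) ∧ v (.inr ()) % n (fun i => v (.inl i)) = t (fun i => v (.inl i))))
    ((Dio.mod (hc hF) (hc hm) (NPoly.coord _)).and (Dio.mod (NPoly.coord _) (hc hn) (hc ht))) e ?_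
  · refine h.congr fun v => ?_
    constructor
    · rintro ⟨w, ⟨h1, h2⟩, h3, h4⟩
      simp only [Sum.elim_inl, Sum.elim_inr] at h1 h2 h3 h4
      exact ⟨h1, h3, by rw [h2]; exact h4⟩
    · rintro ⟨h1, h2, h3⟩
      exact ⟨fun _ => F v % m v, ⟨h1, rfl⟩, h2, h3⟩
  · rintro v ⟨w, ⟨h1, h2⟩, h3⟩
    refine ⟨w, fun j => ?_, ⟨h1, h2⟩, h3⟩
    simp only [Sum.elim_inl, Sum.elim_inr] at h1 h2
    cases j
    rw [← h2]
    exact (Nat.mod_lt _ h1).le.trans (he v)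

/-- Congruent residues. -/
theorem Dio.modmod2 {F G m n : (σ → ℕ) → ℕ} (hF : NPoly F) (hG : NPoly G) (hm : NPoly m)
    (hn : NPoly n) :
    Dio (fun v => 0 < m v ∧ 0 < n v ∧ F v % m v % n v = G v % m v % n v) := by
  obtain ⟨e, he⟩ := hn.bound
  have hc : ∀ {G : (σ → ℕ) → ℕ}, NPoly G →
      NPoly (fun v : σ ⊕ Unit → ℕ => G (fun i => v (.inl i))) := fun hG => PolyFun.comp hG Sum.inl
  have h := Dio.exs (τ := Unit) (Q := fun v : σ ⊕ Unit → ℕ =>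
    (0 < m (fun i => v (.inl i)) ∧ 0 < n (fun i => v (.inl i)) ∧
      F (fun i => v (.inl i)) % m (fun i => v (.inl i)) % n (fun i => v (.inl i)) = v (.inr ())) ∧
    (0 < m (fun i => v (.inl i)) ∧ 0 < n (fun i => v (.inl i)) ∧
      G (fun i => v (.inl i)) % m (fun i => v (.inl i)) % n (fun i => v (.inl i)) = v (.inr ())))
    ((Dio.modmod (hc hF) (hc hm) (hc hn) (NPoly.coord _)).and
      (Dio.modmod (hc hG) (hc hm) (hc hn) (NPoly.coord _))) e ?_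
  · refine h.congr fun v => ?_
    constructor
    · rintro ⟨w, ⟨h1, h2, h3⟩, _, _, h4⟩
      simp only [Sum.elim_inl, Sum.elim_inr] at h1 h2 h3 h4
      exact ⟨h1, h2, h3.trans h4.symm⟩
    · rintro ⟨h1, h2, h3⟩
      exact ⟨fun _ => F v % m v % n v, ⟨h1, h2, rfl⟩, h1, h2, h3.symm⟩
  · rintro v ⟨w, ⟨h1, h2, h3⟩, h4⟩
    refine ⟨w, fun j => ?_, ⟨h1, h2, h3⟩, h4⟩
    simp only [Sum.elim_inl, Sum.elim_inr] at h2 h3
    cases j
    rw [← h3]
    exact (Nat.mod_lt _ h2).le.trans (he v)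

omit [Fintype σ] in
theorem PolyFun.rg (κ : ℕ) {f : (σ → ℕ) → ℤ} (hf : PolyFun f) : PolyFun (fun v => Rg κ (f v)) := by
  unfold Rg
  exact PolyFun.prod _ fun j _ => hf.sub (PolyFun.const _)

omit [Fintype σ] in
theorem PolyFun.phi {κ : ℕ} (ρ : (Fin 5 → Fin κ) → Prop) {f : Fin 5 → (σ → ℕ) → ℤ}
    (hf : ∀ k, PolyFun (f k)) : PolyFun (fun v => Phi κ ρ (fun k => f k v)) := by
  unfold Phi
  exact PolyFun.sum _ fun τ _ => PolyFun.prod _ fun k _ => PolyFun.prod _ fun j _ =>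
    ((hf k).sub (PolyFun.const _)).pow 2

end

/-- Indices of the advice. -/
abbrev AI : Type := Fin 5 ⊕ (Fin 3 ⊕ Fin 4)

/-- The array predicate, all numbers less than the modulus. -/
def ArrP {κ : ℕ} (ρ : (Fin 5 → Fin κ) → Prop) (c : AI → ℕ) (t : Fin 4 → ℕ) : Prop :=
  0 < c (.inl 0) ∧ 0 < c (.inl 1) ∧ ∃ (Z : ℕ) (A : Fin 3 → ℕ), Z < c (.inl 0) ∧
    (∀ k, A k < c (.inl 0)) ∧ Arr ρ (c (.inl 0)) (c (.inl 1)) (c (.inl 2)) (c (.inl 3))
      (fun k => c (.inr (.inl k))) (fun r => c (.inr (.inr r))) t Z A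

theorem dio_arrP {κ : ℕ} (ρ : (Fin 5 → Fin κ) → Prop) :
    Dio (fun v : AI ⊕ Fin 4 → ℕ => ArrP ρ (fun i => v (.inl i)) (fun r => v (.inr r))) := by
  obtain ⟨e, he⟩ := (NPoly.coord (σ := AI ⊕ Fin 4) (Sum.inl (Sum.inl 0))).bound
  -- the matrix
  let Q : ((AI ⊕ Fin 4) ⊕ Option (Fin 3) → ℕ) → Prop := fun v =>
    (0 < v (.inl (.inl (.inl 0))) ∧ 0 < v (.inl (.inl (.inl 1)))) ∧
    (v (.inr none) < v (.inl (.inl (.inl 0))) ∧
      ∀ k : Fin 3, v (.inr (some k)) < v (.inl (.inl (.inl 0)))) ∧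
    ((v (.inl (.inl (.inl 0))) : ℤ) ∣ Rg κ (v (.inr none) : ℤ)) ∧
    (∀ k : Fin 3, (v (.inl (.inl (.inl 0))) : ℤ) ∣ Rg κ (v (.inr (some k)) : ℤ)) ∧
    ((v (.inl (.inl (.inl 0))) : ℤ) ∣ Phi κ ρ (fun k => (![v (.inl (.inl (.inl 2))), v (.inr none),
      v (.inr (some 0)), v (.inr (some 1)), v (.inr (some 2))] k : ℤ))) ∧
    (∀ k : Fin 3, 0 < v (.inl (.inl (.inl 0))) ∧ 0 < v (.inl (.inl (.inl 1))) ∧
      (v (.inr (some k)) * v (.inl (.inl (.inl 3)))) % v (.inl (.inl (.inl 0))) %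
        v (.inl (.inl (.inl 1))) = (v (.inr none) * v (.inl (.inl (.inr (.inl k))))) %
        v (.inl (.inl (.inl 0))) % v (.inl (.inl (.inl 1)))) ∧
    (∀ r : Fin 4, 0 < v (.inl (.inl (.inl 0))) ∧ 0 < v (.inl (.inl (.inl 1))) ∧
      (v (.inr none) * v (.inl (.inl (.inr (.inr r))))) % v (.inl (.inl (.inl 0))) %
        v (.inl (.inl (.inl 1))) = v (.inl (.inr r)))
  have hQ : Dio Q := by
    let M : (AI ⊕ Fin 4) ⊕ Option (Fin 3) := .inl (.inl (.inl 0))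
    let N0 : (AI ⊕ Fin 4) ⊕ Option (Fin 3) := .inl (.inl (.inl 1))
    let C : (AI ⊕ Fin 4) ⊕ Option (Fin 3) := .inl (.inl (.inl 2))
    let H0 : (AI ⊕ Fin 4) ⊕ Option (Fin 3) := .inl (.inl (.inl 3))
    let Hn : Fin 3 → (AI ⊕ Fin 4) ⊕ Option (Fin 3) := fun k => .inl (.inl (.inr (.inl k)))
    let J : Fin 4 → (AI ⊕ Fin 4) ⊕ Option (Fin 3) := fun r => .inl (.inl (.inr (.inr r)))
    let t : Fin 4 → (AI ⊕ Fin 4) ⊕ Option (Fin 3) := fun r => .inl (.inr r)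
    let Z : (AI ⊕ Fin 4) ⊕ Option (Fin 3) := .inr none
    let A : Fin 3 → (AI ⊕ Fin 4) ⊕ Option (Fin 3) := fun k => .inr (some k)
    have q1 : Dio (fun v : (AI ⊕ Fin 4) ⊕ Option (Fin 3) → ℕ => 0 < v M ∧ 0 < v N0) :=
      (Dio.natLt (NPoly.const 0) (NPoly.coord M)).and (Dio.natLt (NPoly.const 0) (NPoly.coord N0))
    have q2 : Dio (fun v : (AI ⊕ Fin 4) ⊕ Option (Fin 3) → ℕ => v Z < v M ∧
        ∀ k : Fin 3, v (A k) < v M) :=
      (Dio.natLt (NPoly.coord Z) (NPoly.coord M)).and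
        (Dio.all fun k => Dio.natLt (NPoly.coord (A k)) (NPoly.coord M))
    have q3 : Dio (fun v : (AI ⊕ Fin 4) ⊕ Option (Fin 3) → ℕ => (v M : ℤ) ∣ Rg κ (v Z : ℤ)) :=
      Dio.dvd (PolyFun.coord M) ((PolyFun.coord Z).rg κ)
    have q4 : Dio (fun v : (AI ⊕ Fin 4) ⊕ Option (Fin 3) → ℕ =>
        ∀ k : Fin 3, (v M : ℤ) ∣ Rg κ (v (A k) : ℤ)) :=
      Dio.all fun k => Dio.dvd (PolyFun.coord M) ((PolyFun.coord (A k)).rg κ)
    have q5 : Dio (fun v : (AI ⊕ Fin 4) ⊕ Option (Fin 3) → ℕ => (v M : ℤ) ∣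
        Phi κ ρ (fun k => ((![v C, v Z, v (A 0), v (A 1), v (A 2)] k : ℕ) : ℤ))) := by
      refine Dio.dvd (PolyFun.coord M) (PolyFun.phi ρ
        (f := fun k v => ((![v C, v Z, v (A 0), v (A 1), v (A 2)] k : ℕ) : ℤ)) fun k => ?_)
      fin_cases k
      · exact PolyFun.coord C
      · exact PolyFun.coord Z
      · exact PolyFun.coord (A 0)
      · exact PolyFun.coord (A 1)
      · exact PolyFun.coord (A 2)
    have q6 : Dio (fun v : (AI ⊕ Fin 4) ⊕ Option (Fin 3) → ℕ => ∀ k : Fin 3,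
        0 < v M ∧ 0 < v N0 ∧ (v (A k) * v H0) % v M % v N0 = (v Z * v (Hn k)) % v M % v N0) :=
      Dio.all fun k => Dio.modmod2 (F := fun v => v (A k) * v H0) (G := fun v => v Z * v (Hn k))
        (m := fun v => v M) (n := fun v => v N0) ((NPoly.coord (A k)).mul (NPoly.coord H0))
        ((NPoly.coord Z).mul (NPoly.coord (Hn k))) (NPoly.coord M) (NPoly.coord N0)
    have q7 : Dio (fun v : (AI ⊕ Fin 4) ⊕ Option (Fin 3) → ℕ => ∀ r : Fin 4,
        0 < v M ∧ 0 < v N0 ∧ (v Z * v (J r)) % v M % v N0 = v (t r)) :=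
      Dio.all fun r => Dio.modmod (F := fun v => v Z * v (J r)) (m := fun v => v M)
        (n := fun v => v N0) (t := fun v => v (t r)) ((NPoly.coord Z).mul (NPoly.coord (J r)))
        (NPoly.coord M) (NPoly.coord N0) (NPoly.coord (t r))
    exact q1.and (q2.and (q3.and (q4.and (q5.and (q6.and q7)))))
  have hvec : ∀ (x0 x1 x2 x3 x4 : ℕ), (fun k => ((![x0, x1, x2, x3, x4] k : ℕ) : ℤ)) =
      ![(x0 : ℤ), x1, x2, x3, x4] := by
    intro x0 x1 x2 x3 x4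
    funext k
    fin_cases k <;> rfl
  refine (Dio.exs hQ e ?_).congr fun v => ?_
  · rintro v ⟨w, hw⟩
    refine ⟨w, fun j => ?_, hw⟩
    obtain ⟨-, ⟨h1, h2⟩, -⟩ := hw
    simp only [Sum.elim_inl, Sum.elim_inr] at h1 h2
    rcases j with _ | k
    · exact h1.le.trans (he v)
    · exact (h2 k).le.trans (he v)
  · constructor
    · rintro ⟨w, ⟨h1, h2⟩, ⟨h3, h4⟩, h5, h6, h7, h8, h9⟩
      simp only [Sum.elim_inl, Sum.elim_inr, hvec] at h1 h2 h3 h4 h5 h6 h7 h8 h9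
      exact ⟨h1, h2, w none, fun k => w (some k), h3, h4, h5, h6, h7, fun k => (h8 k).2.2,
        fun r => (h9 r).2.2⟩
    · rintro ⟨h1, h2, Z, A, h3, h4, h5, h6, h7, h8, h9⟩
      refine ⟨fun j => j.elim Z A, ⟨h1, h2⟩, ⟨h3, h4⟩, h5, h6, ?_, fun k => ⟨h1, h2, h8 k⟩,
        fun r => ⟨h1, h2, h9 r⟩⟩
      simp only [Sum.elim_inl, Sum.elim_inr, hvec]
      exact h7

end Pool.Agent.DPoly
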