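import Pool.Agent.DPoly.TabA

/-!
# Solutions of the tableau are accepting computations
-/

namespace Pool.Agent.DPoly

open Turing Finset

section tab

variable {Γ Λ : Type} [Inhabited Γ] [Inhabited Λ] {κ : ℕ} (hκ : 8 ≤ κ) (D : Fin κ → Cell Γ Λ)
  (M : Bool → TM0.Machine Γ Λ) (enc : Option Bool → Γ) (acc : Λ → Prop)

/-- the machine halts in an accepting state -/
def AccConf (c : TM0.Cfg Γ Λ) : Prop := Halted M c ∧ acc c.q

theorem accC_cont (p : TM0.Cfg Γ Λ × ℤ) (j : ℤ) :
    accC M acc (cont p j) ↔ j = p.2 ∧ AccConf M acc p.1 := by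
  unfold accC AccConf cont
  rw [step_of_halted]
  constructor
  · rintro ⟨q, h1, h2, h3⟩
    by_cases hj : j = p.2
    · simp only [hj, if_true, Option.some.injEq, sub_self, Tape.nth_zero] at h1 h2
      subst h1
      exact ⟨hj, h2, h3⟩
    · simp [hj] at h1
  · rintro ⟨hj, h2, h3⟩
    exact ⟨p.1.q, by simp [hj], by simpa [hj] using h2, h3⟩

/-- soundness -/
theorem sound_aux {T B : ℕ} {w : List (Option Bool)} (hw : w ≠ []) (hB : w.length + T + 1 ≤ B)
    {z : TI T B → Fin κ} (hz : Cons D M enc acc T B z)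
    (hr : ∀ r, ∑ i, (z i : ℕ) * tmWt T B r i = ro w r) :
    ∃ b, AccConf M acc (run M (w.map enc) b T).1 := by
  classical
  have hl : w.map enc ≠ [] := by simpa using hw
  have hll : (w.map enc).length = w.length := List.length_map _
  have hw1 : 1 ≤ w.length := List.length_pos_iff.2 hw
  -- the bits
  have hbits : ∀ (s : Fin 4) (r : Fin 4) (hs : r.val + 1 = s.val),
      (∀ k : Fin B, (z (.inr (.inr (s, k))) : ℕ) ≤ 1) → ∀ k : Fin B,
      (z (.inr (.inr (s, k))) : ℕ) = ((ro w r).testBit k).toNat := by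
    intro s r hs hle k
    have hr3 : ¬ r = 3 := by
      rintro rfl
      have := s.2
      have : (3 : Fin 4).val = 3 := rfl
      omega
    have h1 := hr r
    rw [tm_sum T B (fun i => (z i : ℕ)), dif_neg hr3] at h1
    have e : (⟨r.val + 1, by omega⟩ : Fin 4) = s := Fin.ext hs
    rw [e] at h1
    exact bits_unique B (fun k => (z (.inr (.inr (s, k))) : ℕ)) hle _ h1 k
  have hu := hbits 1 0 rfl fun k => by rw [hz.f1]; split_ifs <;> omega
  have hv := hbits 2 1 rfl fun k => by rw [hz.f2]; split_ifs <;> omega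
  have hf := hbits 3 2 rfl fun k => by rw [hz.f3]; split_ifs <;> omega
  let y : ℕ → ℕ := fun k => (z (lblI T B k) : ℕ)
  have hy1 : ∀ k, k < B → (if y k = 2 then 1 else 0) = ((ro w 0).testBit k).toNat := by
    intro k hk
    rw [← hu ⟨k, hk⟩, hz.f1, ← lblI_eq T B ⟨k, hk⟩]
  have hy2 : ∀ k, k < B → (if y k = 3 then 1 else 0) = ((ro w 1).testBit k).toNat := by
    intro k hk
    rw [← hv ⟨k, hk⟩, hz.f2, ← lblI_eq T B ⟨k, hk⟩]
  have hy3 : ∀ k, k < B → (if y k = 0 then 0 else 1) = ((ro w 2).testBit k).toNat := by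
    intro k hk
    rw [← hf ⟨k, hk⟩, hz.f3, ← lblI_eq T B ⟨k, hk⟩]
  set x0 := B - w.length with hx0
  have hx0T : T + 1 ≤ x0 := by omega
  have hx0B : x0 + w.length = B := by omega
  let c : ℕ → ℕ → Cell Γ Λ := fun t x => D (z (cellI T B t x))
  -- the first row
  have hrow0 : ∀ (b : ℕ → Bool) x, x ≤ B + T + 1 →
      (c 0 x).1 = cont (run M (w.map enc) b 0) ((x : ℤ) - x0) := by
    intro b x hx
    by_cases hcond : x = 0 ∨ x = B + T + 1 ∨ (0 = 0 ∧ B ≤ x)
    · rw [show (c 0 x).1 = (default, none) from hz.a 0 (Nat.zero_le _) x hx hcond]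
      symm
      apply cont_far M _ hl
      rw [hll]
      push_cast
      omega
    · have h1 := hz.b x (by omega) (by omega)
      have h2 : lab enc (y (B - 1 - x)) (y (B - 1 - x + 1)) =
          if B - 1 - x < w.length then
          (enc (w.getI (w.length - 1 - (B - 1 - x))),
            if B - 1 - x + 1 = w.length then some (default : Λ) else none)
          else (default, none) :=
        lab_eq enc (hy1 _ (by omega)) (hy2 _ (by omega)) (hy3 _ (by omega)) (hy3 _ (by omega))
      have h3 := row_zero M enc hw b (k := B - 1 - x) (B := B) (by omega) (by omega)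
      rw [show (c 0 x).1 = _ from h1]
      rw [show B - 1 - (B - 1 - x) = x by omega] at h3
      rw [h3]
      exact h2
  -- the choices
  let β : ℕ → ℤ → Bool := fun t j => (c t (j + x0).toNat).2
  let p : ℕ → TM0.Cfg Γ Λ × ℤ := fun t =>
    Nat.rec (TM0.init (w.map enc), 0) (fun t p => next M (β t p.2) p) t
  have hp0 : p 0 = (TM0.init (w.map enc), 0) := rfl
  have hps : ∀ t, p (t + 1) = next M (β t (p t).2) (p t) := fun t => rfl
  let b : ℕ → Bool := fun t => β t (p t).2
  have hrun : ∀ t, run M (w.map enc) b t = p t := by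
    intro t
    induction t with
    | zero => rfl
    | succ t ih => rw [run, ih, hps]
  have hrow : ∀ t, t ≤ T → ∀ x, x ≤ B + T + 1 → (c t x).1 = cont (p t) ((x : ℤ) - x0) := by
    intro t
    induction t with
    | zero =>
      intro _ x hx
      rw [← hrun]
      exact hrow0 b x hx
    | succ t ih =>
      intro ht x hx
      by_cases hcond : x = 0 ∨ x = B + T + 1 ∨ (t + 1 = 0 ∧ B ≤ x)
      · rw [show (c (t + 1) x).1 = (default, none) from hz.a (t + 1) ht x hx hcond,
          show p (t + 1) = run M (w.map enc) b (t + 1) from (hrun (t + 1)).symm]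
        symm
        apply cont_far M _ hl
        rw [hll]
        push_cast
        omega
      · have h1 := hz.c t (by omega) x (by omega) (by omega)
        rw [show (c (t + 1) x).1 = _ from h1, hps, cont_next]
        have h2 : ∀ x', x' ≤ B + T + 1 →
            c t x' = (cont (p t) ((x' : ℤ) - x0), β t ((x' : ℤ) - x0)) := by
          intro x' hx'
          apply Prod.ext
          · exact ih (by omega) x' hx'
          · change (c t x').2 = (c t ((x' : ℤ) - x0 + x0).toNat).2
            rw [sub_add_cancel, Int.toNat_natCast]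
        have h3 := h2 (x - 1) (by omega)
        have h4 := h2 x hx
        have h5 := h2 (x + 1) (by omega)
        rw [show (((x - 1 : ℕ) : ℤ) - x0) = (x : ℤ) - x0 - 1 by omega] at h3
        rw [show (((x + 1 : ℕ) : ℤ) - x0) = (x : ℤ) - x0 + 1 by push_cast; ring] at h5
        change caN M (c t (x - 1)) (c t x) (c t (x + 1)) = _
        rw [h3, h4, h5]
  -- acceptance
  have h1 := hr 3
  rw [tm_sum T B (fun i => (z i : ℕ)), dif_pos rfl] at h1
  have h2 : ro w 3 = 1 := rfl
  rw [h2] at h1
  obtain ⟨x, -, hx⟩ := Finset.exists_ne_zero_of_sum_ne_zero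
    (s := (univ : Finset (Fin (B + T + 2)))) (f := fun x => (z (.inr (.inl x)) : ℕ))
    (by rw [h1]; exact one_ne_zero)
  rcases hz.e x with h3 | ⟨-, h3⟩
  · exact absurd h3 hx
  · have h4 : accC M acc (c T x).1 := h3
    rw [hrow T le_rfl x (by omega), accC_cont] at h4
    refine ⟨b, ?_⟩
    rw [hrun]
    exact h4.2

/-- completeness -/
theorem complete_aux {T B : ℕ} {w : List (Option Bool)} (hw : w ≠ [])
    (hB : w.length + T + 1 ≤ B) (E : Cell Γ Λ → Fin κ) (hDE : ∀ a, D (E a) = a) (hκ : 8 ≤ κ)
    {b : ℕ → Bool} (hb : AccConf M acc (run M (w.map enc) b T).1) :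
    ∃ z : TI T B → Fin κ, Cons D M enc acc T B z ∧
      ∀ r, ∑ i, (z i : ℕ) * tmWt T B r i = ro w r := by
  classical
  have hl : w.map enc ≠ [] := by simpa using hw
  have hll : (w.map enc).length = w.length := List.length_map _
  have hw1 : 1 ≤ w.length := List.length_pos_iff.2 hw
  set x0 := B - w.length with hx0
  have hx0T : T + 1 ≤ x0 := by omega
  have hx0B : x0 + w.length = B := by omega
  -- labels
  let yv : ℕ → ℕ := fun k => if (ro w 0).testBit k then 2 else if (ro w 1).testBit k then 3
    else if (ro w 2).testBit k then 1 else 0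
  have hyv : ∀ k, yv k < 4 := by
    intro k
    simp only [yv]
    split_ifs <;> omega
  have hor : ∀ k, (if yv k = 2 then 1 else 0) = ((ro w 0).testBit k).toNat ∧
      (if yv k = 3 then 1 else 0) = ((ro w 1).testBit k).toNat ∧
      (if yv k = 0 then 0 else 1) = ((ro w 2).testBit k).toNat := by
    intro k
    by_cases hk : k < w.length
    · obtain ⟨b0, b1, b2⟩ := ro_testBit hk
      rcases hwk : w.getI (w.length - 1 - k) with _ | v
      · have e0 : (ro w 0).testBit k = false := by
          rw [Bool.eq_false_iff]; intro h; rw [b0.1 h] at hwk; simp at hwk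
        have e1 : (ro w 1).testBit k = true := b1.2 hwk
        simp [yv, e0, e1, b2]
      · have e1 : (ro w 1).testBit k = false := by
          rw [Bool.eq_false_iff]; intro h; rw [b1.1 h] at hwk; simp at hwk
        cases v with
        | true =>
          have e0 : (ro w 0).testBit k = true := b0.2 hwk
          simp [yv, e0, e1, b2]
        | false =>
          have e0 : (ro w 0).testBit k = false := by
            rw [Bool.eq_false_iff]; intro h; rw [b0.1 h] at hwk; simp at hwk
          simp [yv, e0, e1, b2]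
    · obtain ⟨b0, b1, b2⟩ := ro_testBit_ge (not_lt.1 hk)
      simp [yv, b0, b1, b2]
  let toK : ∀ n : ℕ, n < 8 → Fin κ := fun n hn => ⟨n, by omega⟩
  let zl : Fin 4 → ℕ → Fin κ := fun s k =>
    if s = 0 then toK (yv k) (by have := hyv k; omega)
    else if s = 1 then toK (if yv k = 2 then 1 else 0) (by split_ifs <;> omega)
    else if s = 2 then toK (if yv k = 3 then 1 else 0) (by split_ifs <;> omega)
    else toK (if yv k = 0 then 0 else 1) (by split_ifs <;> omega)
  let R : ℕ → TM0.Cfg Γ Λ × ℤ := run M (w.map enc) b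
  let z : TI T B → Fin κ := fun i => match i with
    | .inl (t, x) => E (cont (R t.val) ((x.val : ℤ) - x0), b t.val)
    | .inr (.inl x) => if (x.val : ℤ) - x0 = (R T).2 then toK 1 (by omega) else toK 0 (by omega)
    | .inr (.inr (s, k)) => zl s k.val
  have hzc : ∀ t ≤ T, ∀ x ≤ B + T + 1,
      D (z (cellI T B t x)) = (cont (R t) ((x : ℤ) - x0), b t) := by
    intro t ht x hx
    have e1 : cellI T B t x = .inl (⟨t, by omega⟩, ⟨x, by omega⟩) :=
      cellI_eq T B ⟨t, by omega⟩ ⟨x, by omega⟩
    rw [e1]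
    exact hDE _
  have hzl : ∀ k, k < B → (z (lblI T B k) : ℕ) = yv k := by
    intro k hk
    rw [lblI_eq T B ⟨k, hk⟩]
    rfl
  refine ⟨z, ⟨?_, ?_, ?_, ?_, ?_, ?_, ?_⟩, ?_⟩
  · intro t ht x hx hcond
    rw [hzc t ht x hx]
    apply cont_far M _ hl
    rw [hll]
    omega
  · intro x hx0' hxB
    rw [hzc 0 (Nat.zero_le _) x (by omega), hzl _ (by omega), hzl _ (by omega)]
    have h2 : (lab enc (yv (B - 1 - x)) (yv (B - 1 - x + 1)) : Γ × Option Λ) = _ :=
      lab_eq enc (hor _).1 (hor _).2.1 (hor _).2.2 (hor _).2.2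
    have h3 := row_zero M enc hw b (k := B - 1 - x) (B := B) (by omega) (by omega)
    rw [show B - 1 - (B - 1 - x) = x by omega] at h3
    rw [h2]
    exact h3
  · intro t ht x hx0' hx
    rw [hzc (t + 1) (by omega) x (by omega), hzc t (by omega) (x - 1) (by omega),
      hzc t (by omega) x (by omega), hzc t (by omega) (x + 1) (by omega)]
    have h := cont_next M (R t) (fun _ => b t) ((x : ℤ) - x0)
    rw [show (((x - 1 : ℕ) : ℤ) - x0) = (x : ℤ) - x0 - 1 by omega,
      show (((x + 1 : ℕ) : ℤ) - x0) = (x : ℤ) - x0 + 1 by push_cast; ring]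
    exact h
  · intro x
    by_cases hx : (x.val : ℤ) - x0 = (R T).2
    · right
      refine ⟨?_, ?_⟩
      · change ((if (x.val : ℤ) - x0 = (R T).2 then toK 1 (by omega) else toK 0 (by omega) :
          Fin κ) : ℕ) = 1
        rw [if_pos hx]
      · rw [hzc T le_rfl x (by omega), accC_cont]
        exact ⟨hx, hb⟩
    · left
      change ((if (x.val : ℤ) - x0 = (R T).2 then toK 1 (by omega) else toK 0 (by omega) :
          Fin κ) : ℕ) = 0
      rw [if_neg hx]
  · intro k; rfl
  · intro k; rfl
  · intro k; rfl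
  · have hlt : ∀ φ, val φ w < 2 ^ B := fun φ =>
      lt_of_lt_of_le (val_lt φ w) (Nat.pow_le_pow_right (by norm_num) (by omega))
    have k0 : ∑ i, (z i : ℕ) * tmWt T B 0 i = ro w 0 := by
      rw [tm_sum T B (fun i => (z i : ℕ)), dif_neg (by decide)]
      have h2 := bits_sum B (ro w 0) (hlt _)
      refine Eq.trans ?_ h2
      refine Finset.sum_congr rfl fun k _ => ?_
      rw [← (hor k).1]
      rfl
    have k1 : ∑ i, (z i : ℕ) * tmWt T B 1 i = ro w 1 := by
      rw [tm_sum T B (fun i => (z i : ℕ)), dif_neg (by decide)]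
      have h2 := bits_sum B (ro w 1) (hlt _)
      refine Eq.trans ?_ h2
      refine Finset.sum_congr rfl fun k _ => ?_
      rw [← (hor k).2.1]
      rfl
    have k2 : ∑ i, (z i : ℕ) * tmWt T B 2 i = ro w 2 := by
      rw [tm_sum T B (fun i => (z i : ℕ)), dif_neg (by decide)]
      have h2 := bits_sum B (ro w 2) (hlt _)
      refine Eq.trans ?_ h2
      refine Finset.sum_congr rfl fun k _ => ?_
      rw [← (hor k).2.2]
      rfl
    have k3 : ∑ i, (z i : ℕ) * tmWt T B 3 i = ro w 3 := by
      rw [tm_sum T B (fun i => (z i : ℕ)), dif_pos rfl]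
      have hh := head_le M (w.map enc) b T
      rw [abs_le] at hh
      have hh' : -(T : ℤ) ≤ (R T).2 ∧ (R T).2 ≤ T := hh
      have hpos : 0 ≤ (R T).2 + x0 := by omega
      have hlt' : ((R T).2 + x0).toNat < B + T + 2 := by omega
      change ∑ x : Fin (B + T + 2), ((if (x.val : ℤ) - x0 = (R T).2 then toK 1 (by omega)
        else toK 0 (by omega) : Fin κ) : ℕ) = 1
      rw [Finset.sum_eq_single (⟨((R T).2 + x0).toNat, hlt'⟩ : Fin (B + T + 2))]
      · rw [if_pos (by simp only; omega)]
      · intro x _ hx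
        rw [if_neg]
        intro h
        apply hx
        apply Fin.ext
        simp only
        omega
      · intro h; exact absurd (mem_univ _) h
    intro r
    fin_cases r
    · exact k0
    · exact k1
    · exact k2
    · exact k3

/-- The constraint system of the machine. -/
theorem tmCsp_sat {T B : ℕ} {w : List (Option Bool)} (hw : w ≠ [])
    (hB : w.length + T + 1 ≤ B) (E : Cell Γ Λ → Fin κ) (hDE : ∀ a, D (E a) = a) :
    (tmCsp hκ T B).Sat (rho D M enc acc) (ro w) ↔
      ∃ b, AccConf M acc (run M (w.map enc) b T).1 := by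
  constructor
  · rintro ⟨z, h1, h2⟩
    exact sound_aux D M enc acc hw hB ((cons_iff hκ D M enc acc T B z).1 h1) h2
  · rintro ⟨b, hb⟩
    obtain ⟨z, h1, h2⟩ := complete_aux D M enc acc hw hB E hDE hκ hb
    exact ⟨z, (cons_iff hκ D M enc acc T B z).2 h1, h2⟩

end tab

end Pool.Agent.DPoly
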