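import Pool.Agent.DPoly.Pack
import Pool.Agent.DPoly.TabB

/-!
# Relations in `NP` are Diophantine with one advice number
-/

namespace Pool.Agent.DPoly

open Finset Turing

/-- polynomial functions of one variable -/
def PB (f : ℕ → ℕ) : Prop := ∃ q : Polynomial ℕ, ∀ N, f N = q.eval N

theorem PB.const (c : ℕ) : PB (fun _ => c) := ⟨Polynomial.C c, fun N => by simp⟩

theorem PB.id : PB (fun N => N) := ⟨Polynomial.X, fun N => by simp⟩

theorem PB.add {f g : ℕ → ℕ} (hf : PB f) (hg : PB g) : PB (fun N => f N + g N) := by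
  obtain ⟨p, hp⟩ := hf
  obtain ⟨q, hq⟩ := hg
  exact ⟨p + q, fun N => by simp [hp, hq]⟩

theorem PB.mul {f g : ℕ → ℕ} (hf : PB f) (hg : PB g) : PB (fun N => f N * g N) := by
  obtain ⟨p, hp⟩ := hf
  obtain ⟨q, hq⟩ := hg
  exact ⟨p * q, fun N => by simp [hp, hq]⟩

theorem PB.comp (p : Polynomial ℕ) {g : ℕ → ℕ} (hg : PB g) : PB (fun N => p.eval (g N)) := by
  obtain ⟨q, hq⟩ := hg
  exact ⟨p.comp q, fun N => by simp [hq]⟩

theorem eval_mono' (p : Polynomial ℕ) {x y : ℕ} (h : x ≤ y) : p.eval x ≤ p.eval y := by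
  rw [Polynomial.eval_eq_sum_range, Polynomial.eval_eq_sum_range]
  exact Finset.sum_le_sum fun i _ => Nat.mul_le_mul_left _ (Nat.pow_le_pow_left h i)

theorem le_two_pow (n : ℕ) : n ≤ 2 ^ n := Nat.lt_two_pow_self.le

theorem arith_aux {A x y S : ℕ} (h1 : S ≤ A * y) (h3 : (A + 1) * y ≤ x * y) (h4 : 1 ≤ y) :
    2 + S ≤ 2 * (x * y) := by
  nlinarith

/-- bounded sums of weights -/
theorem sum_wt_le (T B : ℕ) (r : Fin 4) :
    ∑ i, tmWt T B r i ≤ Fintype.card (TI T B) * 2 ^ B := by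
  calc ∑ i, tmWt T B r i ≤ ∑ _i : TI T B, 2 ^ B := by
        refine Finset.sum_le_sum fun i _ => ?_
        rcases i with i | i | ⟨s, k⟩
        · simp [tmWt]
        · simp only [tmWt]
          split_ifs
          · exact Nat.one_le_two_pow
          · exact Nat.zero_le _
        · simp only [tmWt]
          split_ifs
          · exact Nat.pow_le_pow_right (by norm_num) k.2.le
          · exact Nat.zero_le _
    _ = Fintype.card (TI T B) * 2 ^ B := by simp

theorem card_TI (T B : ℕ) :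
    Fintype.card (TI T B) = (T + 1) * (B + T + 2) + ((B + T + 2) + 4 * B) := by
  simp

section

variable {Γ Λ : Type} [Inhabited Γ] [Inhabited Λ]

theorem np_dio [Finite Γ] [Finite Λ] {n : ℕ} (hn : 1 ≤ n) (M : Bool → TM0.Machine Γ Λ)
    (enc : Option Bool → Γ) (acc : Λ → Prop) (p : Polynomial ℕ) (R : Set (Fin n → ℕ))
    (h : ∀ a : Fin n → ℕ, (∀ t c, Reaches M t (TM0.init ((word a).map enc)) c →
        t ≤ p.eval (word a).length) ∧
      (a ∈ R ↔ ∃ t c, Reaches M t (TM0.init ((word a).map enc)) c ∧ Halted M c ∧ acc c.q)) :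
    ∃ P : (Fin (n + 1) → ℕ) → Prop, Dio P ∧ ∃ (q : Polynomial ℕ) (c : ℕ → ℕ),
      (∀ N, 2 ≤ c N ∧ c N ≤ 2 ^ q.eval N) ∧
      ∀ a : Fin n → ℕ, a ∈ R ↔ P (Fin.snoc (α := fun _ => ℕ) a (c (len (∑ i, a i)))) := by
  classical
  have := Fintype.ofFinite (Cell Γ Λ)
  set c0 := Fintype.card (Cell Γ Λ) with hc0
  let eC : Cell Γ Λ ≃ Fin c0 := Fintype.equivFin _
  let κ := c0 + 8
  have hκ8 : 8 ≤ κ := Nat.le_add_left _ _
  let EE : Cell Γ Λ → Fin κ := fun a => Fin.castLE (Nat.le_add_right c0 8) (eC a)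
  let DD : Fin κ → Cell Γ Λ := fun j => if hj : j.val < c0 then eC.symm ⟨j.val, hj⟩ else default
  have hDE : ∀ a, DD (EE a) = a := by
    intro a
    simp only [DD, EE, Fin.val_castLE]
    rw [dif_pos (eC a).2]
    simp
  let ρ : (Fin 5 → Fin κ) → Prop := rho DD M enc acc
  obtain ⟨K, hK⟩ := Phi_bound κ ρ
  obtain ⟨F, hF1, hF2, hF3⟩ := exists_pack' AI
  -- the parameters
  let L : ℕ → ℕ := fun N => n * (N + 1)
  let T : ℕ → ℕ := fun N => p.eval (L N)
  let B : ℕ → ℕ := fun N => L N + T N + 1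
  let s : ℕ → ℕ := fun N => (T N + 1) * (B N + T N + 2) + ((B N + T N + 2) + 4 * B N)
  let E : ℕ → ℕ := fun N => κ * s N + κ + s N + B N + 1
  have hL : PB L := (PB.const n).mul (PB.id.add (PB.const 1))
  have hT : PB T := PB.comp p hL
  have hB : PB B := (hL.add hT).add (PB.const 1)
  have hs : PB s := ((hT.add (PB.const 1)).mul ((hB.add hT).add (PB.const 2))).add
    (((hB.add hT).add (PB.const 2)).add ((PB.const 4).mul hB))
  have hE : PB E := (((((PB.const κ).mul hs).add (PB.const κ)).add hs).add hB).add (PB.const 1)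
  have hcard : ∀ N, Fintype.card (TI (T N) (B N)) = s N := fun N => card_TI _ _
  have hE1 : ∀ N, κ ^ Fintype.card (tmCsp hκ8 (T N) (B N)).ι ≤ 2 ^ E N := by
    intro N
    change κ ^ Fintype.card (TI (T N) (B N)) ≤ 2 ^ E N
    rw [hcard]
    calc κ ^ s N ≤ (2 ^ κ) ^ s N := Nat.pow_le_pow_left (le_two_pow κ) _
      _ = 2 ^ (κ * s N) := by rw [← pow_mul]
      _ ≤ 2 ^ E N := Nat.pow_le_pow_right (by norm_num) (by simp only [E]; omega)
  have hE2 : ∀ N r, κ * ∑ i, (tmCsp hκ8 (T N) (B N)).wt r i < 2 ^ E N := by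
    intro N r
    have h1 : ∑ i, (tmCsp hκ8 (T N) (B N)).wt r i ≤ s N * 2 ^ B N := by
      have := sum_wt_le (T N) (B N) r
      rw [hcard] at this
      exact this
    calc κ * ∑ i, (tmCsp hκ8 (T N) (B N)).wt r i ≤ 2 ^ κ * (2 ^ s N * 2 ^ B N) :=
          Nat.mul_le_mul (le_two_pow κ) (h1.trans (Nat.mul_le_mul_right _ (le_two_pow _)))
      _ = 2 ^ (κ + s N + B N) := by rw [pow_add, pow_add]; ring
      _ < 2 ^ E N := Nat.pow_lt_pow_right (by norm_num) (by simp only [E]; omega)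
  have hE0 : ∀ N, 1 ≤ E N := fun N => by simp only [E]; omega
  choose M' C H0 Hn J hM0 hM hC hH0 hHn hJ hmain using fun N =>
    csp_arr ρ (le_trans (by norm_num) hκ8) hK (tmCsp hκ8 (T N) (B N)) (E N) (hE0 N) (hE1 N) (hE2 N)
  let adv : ℕ → AI → ℕ := fun N => Sum.elim ![M' N, 2 ^ E N, C N, H0 N, 2 ^ N]
    (Sum.elim (Hn N) (J N))
  -- the bound for the advice
  let G : ℕ → ℕ := fun N => s N * (s N + (s N + κ + E N + (K + κ + 2) + 1)) + (E N + N)
  have hG : PB G := (hs.mul (hs.add ((((hs.add (PB.const κ)).add hE).add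
    (PB.const (K + κ + 2))).add (PB.const 1)))).add (hE.add PB.id)
  have hMG : ∀ N, M' N ≤ 2 ^ G N := by
    intro N
    refine (hM N).trans ?_
    have hcc : Fintype.card (tmCsp hκ8 (T N) (B N)).ι = s N := hcard N
    rw [hcc]
    have h1 : s N * (κ * 2 ^ E N) ≤ 2 ^ (s N + κ + E N) := by
      rw [pow_add 2 (s N + κ) (E N), pow_add 2 (s N) κ, mul_assoc]
      exact Nat.mul_le_mul (le_two_pow _) (Nat.mul_le_mul_right _ (le_two_pow _))
    have h2 : K + κ + 2 ≤ 2 ^ (K + κ + 2) := le_two_pow _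
    have h3 : s N * (κ * 2 ^ E N) + K + κ + 2 ≤ 2 ^ (s N + κ + E N + (K + κ + 2) + 1) := by
      have h4 : 2 ^ (s N + κ + E N) ≤ 2 ^ (s N + κ + E N + (K + κ + 2)) :=
        Nat.pow_le_pow_right (by norm_num) (by omega)
      have h5 : 2 ^ (K + κ + 2) ≤ 2 ^ (s N + κ + E N + (K + κ + 2)) :=
        Nat.pow_le_pow_right (by norm_num) (by omega)
      rw [pow_succ 2 (s N + κ + E N + (K + κ + 2))]
      omega
    calc (2 ^ s N * (s N * (κ * 2 ^ E N) + K + κ + 2)) ^ s N
        ≤ (2 ^ s N * 2 ^ (s N + κ + E N + (K + κ + 2) + 1)) ^ s N :=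
          Nat.pow_le_pow_left (Nat.mul_le_mul_left _ h3) _
      _ = 2 ^ (s N * (s N + (s N + κ + E N + (K + κ + 2) + 1))) := by
          rw [← pow_add, ← pow_mul, mul_comm]
      _ ≤ 2 ^ G N := Nat.pow_le_pow_right (by norm_num) (by simp only [G]; omega)
  have hadv : ∀ N i, adv N i ≤ 2 ^ G N := by
    intro N i
    rcases i with i | i | i
    · fin_cases i
      · exact hMG N
      · exact Nat.pow_le_pow_right (by norm_num) (by simp only [G]; omega)
      · exact (hC N).le.trans (hMG N)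
      · exact (hH0 N).le.trans (hMG N)
      · exact Nat.pow_le_pow_right (by norm_num) (by simp only [G]; omega)
    · exact (hHn N i).le.trans (hMG N)
    · exact (hJ N i).le.trans (hMG N)
  obtain ⟨e, he⟩ := hF1.bound
  -- the advice
  let c : ℕ → ℕ := fun N => F (adv N) + 2
  let A0 := Fintype.card AI
  have hq : PB (fun N => (1 + (A0 + G N)) * e + 2 + 1) :=
    ((((PB.const 1).add ((PB.const A0).add hG)).mul (PB.const e)).add (PB.const 2)).add (PB.const 1)
  obtain ⟨q, hq⟩ := hq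
  have hcq : ∀ N, c N ≤ 2 ^ q.eval N := by
    intro N
    rw [← hq]
    have h1 : ∑ i, adv N i ≤ A0 * 2 ^ G N := by
      calc ∑ i, adv N i ≤ ∑ _i : AI, 2 ^ G N := Finset.sum_le_sum fun i _ => hadv N i
        _ = A0 * 2 ^ G N := by simp [A0]
    have h2 : 2 + ∑ i, adv N i ≤ 2 ^ (1 + (A0 + G N)) := by
      have h3 : (A0 + 1) * 2 ^ G N ≤ 2 ^ A0 * 2 ^ G N :=
        Nat.mul_le_mul_right _ (Nat.lt_two_pow_self)
      have h4 : 1 ≤ 2 ^ G N := Nat.one_le_two_pow
      have h6 : 2 ^ (1 + (A0 + G N)) = 2 * (2 ^ A0 * 2 ^ G N) := by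
        rw [pow_add, pow_add, pow_one]
      rw [h6]
      exact arith_aux h1 h3 h4
    have h7 : F (adv N) ≤ 2 ^ ((1 + (A0 + G N)) * e) := by
      refine (he (adv N)).trans ?_
      rw [pow_mul]
      exact Nat.pow_le_pow_left h2 e
    have h8 : 2 ^ ((1 + (A0 + G N)) * e) ≤ 2 ^ ((1 + (A0 + G N)) * e + 2) :=
      Nat.pow_le_pow_right (by norm_num) (by omega)
    have h9 : 2 ≤ 2 ^ ((1 + (A0 + G N)) * e + 2) := by
      generalize (1 + (A0 + G N)) * e = u
      rw [pow_add]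
      have := Nat.one_le_two_pow (n := u)
      omega
    change F (adv N) + 2 ≤ _
    rw [pow_succ 2 ((1 + (A0 + G N)) * e + 2)]
    omega
  refine ⟨_, dio_total n ρ hF1 hF3, q, c, fun N => ⟨Nat.le_add_left _ _, hcq N⟩, fun a => ?_⟩
  -- correctness
  set N := len (∑ i, a i) with hN
  have hlen : ∀ i, len (a i) ≤ N := fun i =>
    len_mono (Finset.single_le_sum (fun _ _ => Nat.zero_le _) (Finset.mem_univ i))
  have hwl : (word a).length ≤ L N := by
    rw [word_length]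
    calc ∑ i, (len (a i) + 1) ≤ ∑ _i : Fin n, (N + 1) :=
          Finset.sum_le_sum fun i _ => Nat.succ_le_succ (hlen i)
      _ = L N := by simp [L]
  have hw : word a ≠ [] := by
    intro h0
    have h1 := word_length a
    rw [h0, List.length_nil] at h1
    have h2 : ∑ _i : Fin n, 1 ≤ ∑ i, (len (a i) + 1) :=
      Finset.sum_le_sum fun i _ => Nat.le_add_left _ _
    simp at h2
    omega
  have hBN : (word a).length + T N + 1 ≤ B N := by
    simp only [B]
    omega
  have hsat := tmCsp_sat (hκ := hκ8) (D := DD) (M := M) (enc := enc) (acc := acc) hw hBN EE hDE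
  have hR : a ∈ R ↔ (tmCsp hκ8 (T N) (B N)).Sat ρ (ro (word a)) := by
    rw [hsat, (h a).2]
    unfold AccConf
    rw [run_iff M ((word a).map enc) (T N) (fun c => acc c.q)]
    constructor
    · rintro ⟨t, c, h1, h2, h3⟩
      refine ⟨t, ((h a).1 t c h1).trans (eval_mono' p hwl), c, h1, h2, h3⟩
    · rintro ⟨t, -, c, h1, h2, h3⟩
      exact ⟨t, c, h1, h2, h3⟩
  rw [hR]
  simp only [Fin.snoc_last, Fin.snoc_castSucc]
  constructor
  · intro hS
    obtain ⟨Z, A, h1, h2, h3⟩ := (hmain N (ro (word a))).1 hS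
    refine ⟨Sum.elim (adv N) (ro (word a)), rfl, ?_, ?_⟩
    · exact (inpP_iff a hlen (ro (word a))).2 rfl
    · refine ⟨hM0 N, ?_, Z, A, h1, h2, h3⟩
      exact Nat.two_pow_pos (E N)
  · rintro ⟨w, h1, h2, h3⟩
    have h4 : (fun i => w (.inl i)) = adv N := by
      apply hF2
      have h5 : F (adv N) + 2 = F (fun i => w (.inl i)) + 2 := h1
      omega
    have h6 : w (.inl (.inl 4)) = 2 ^ N := congrFun h4 (.inl 4)
    rw [h6] at h2
    have h7 : (fun r => w (.inr r)) = ro (word a) := (inpP_iff a hlen _).1 h2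
    rw [h4, h7] at h3
    obtain ⟨-, -, Z, A, -, -, h8⟩ := h3
    exact (hmain N (ro (word a))).2 Z A h8

end

end Pool.Agent.DPoly
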