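import Mathlib

/-!
# Arrays of small numbers modulo a product of large primes
-/

namespace Pool.Agent.DPoly

open Finset

/-- Many primes that are not too large. -/
theorem exists_primes (s B : ℕ) (hB : 0 < B) : ∃ p : Fin s → ℕ, Function.Injective p ∧
    ∀ g, (p g).Prime ∧ B < p g ∧ p g ≤ 2 ^ s * B := by
  classical
  have hex : ∀ n : ℕ, n ≠ 0 → ∃ q, q.Prime ∧ n < q ∧ q ≤ 2 * n := fun n hn =>
    Nat.exists_prime_lt_and_le_two_mul n hn
  let f : ℕ → ℕ := fun n => if h : n ≠ 0 then Classical.choose (hex n h) else 2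
  have hf : ∀ n, n ≠ 0 → (f n).Prime ∧ n < f n ∧ f n ≤ 2 * n := by
    intro n hn
    have h1 : f n = Classical.choose (hex n hn) := by
      simp only [f]
      rw [dif_pos hn]
    rw [h1]
    exact Classical.choose_spec (hex n hn)
  let q : ℕ → ℕ := fun k => f^[k] B
  have hq0 : q 0 = B := rfl
  have hqs : ∀ k, q (k + 1) = f (q k) := fun k => Function.iterate_succ_apply' f k B
  have hpos : ∀ k, q k ≠ 0 := by
    intro k
    induction k with
    | zero => rw [hq0]; omega
    | succ k ih =>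
      rw [hqs]
      exact (hf _ ih).1.ne_zero
  have hmono : StrictMono q := strictMono_nat_of_lt_succ fun k => by
    rw [hqs]
    exact (hf _ (hpos k)).2.1
  have hle : ∀ k, q k ≤ 2 ^ k * B := by
    intro k
    induction k with
    | zero => rw [hq0]; simp
    | succ k ih =>
      rw [hqs]
      calc f (q k) ≤ 2 * q k := (hf _ (hpos k)).2.2
        _ ≤ 2 * (2 ^ k * B) := Nat.mul_le_mul_left _ ih
        _ = 2 ^ (k + 1) * B := by ring
  refine ⟨fun g => q (g + 1), ?_, ?_⟩
  · intro a b hab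
    have h1 : (a : ℕ) + 1 = b + 1 := hmono.injective hab
    exact Fin.ext (by omega)
  · intro g
    refine ⟨?_, ?_, ?_⟩
    · show (q (g + 1)).Prime
      rw [hqs]; exact (hf _ (hpos _)).1
    · calc B = q 0 := hq0.symm
        _ < q (g + 1) := hmono (by omega)
    · calc q (g + 1) ≤ 2 ^ ((g : ℕ) + 1) * B := hle _
        _ ≤ 2 ^ s * B := Nat.mul_le_mul_right _ (Nat.pow_le_pow_right (by norm_num) g.2)

variable {ι : Type} [Fintype ι] [DecidableEq ι]

/-- Chinese remainder theorem. -/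
theorem exists_crt (p : ι → ℕ) (hco : ∀ i j, i ≠ j → Nat.Coprime (p i) (p j))
    (z : ι → ℕ) (hz : ∀ i, z i < p i) :
    ∃ Z, Z < ∏ i, p i ∧ ∀ i, Z % p i = z i := by
  have hp : ∀ i ∈ (univ : Finset ι), p i ≠ 0 := fun i _ => by have := hz i; omega
  have pp : Set.Pairwise (↑(univ : Finset ι)) (Function.onFun Nat.Coprime p) :=
    fun i _ j _ h => hco i j h
  refine ⟨Nat.chineseRemainderOfFinset z p univ hp pp,
    Nat.chineseRemainderOfFinset_lt_prod z p hp pp, fun i => ?_⟩
  have h := (Nat.chineseRemainderOfFinset z p univ hp pp).2 i (mem_univ i)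
  have h2 : _ % p i = z i % p i := h
  rw [h2]
  exact Nat.mod_eq_of_lt (hz i)

/-- The product of the other moduli. -/
def cof (p : ι → ℕ) (i : ι) : ℕ := ∏ j ∈ univ.erase i, p j

theorem mul_cof (p : ι → ℕ) (i : ι) : p i * cof p i = ∏ j, p j :=
  mul_prod_erase univ p (mem_univ i)

theorem sum_lt_of_card_mul_lt (a : ι → ℕ) (M : ℕ) (hM : 0 < M)
    (h : ∀ i, Fintype.card ι * a i < M) : ∑ i, a i < M := by
  rcases isEmpty_or_nonempty ι with he | hne
  · simpa using hM
  · have hc : 0 < Fintype.card ι := Fintype.card_pos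
    have h1 : Fintype.card ι * ∑ i, a i < Fintype.card ι * M := by
      calc Fintype.card ι * ∑ i, a i = ∑ i, Fintype.card ι * a i := by rw [mul_sum]
        _ < ∑ _i : ι, M := sum_lt_sum_of_nonempty univ_nonempty fun i _ => h i
        _ = Fintype.card ι * M := by simp
    exact lt_of_mul_lt_mul_left h1 (Nat.zero_le _)

/-- The linear functional: one number `H` computes a weighted sum of the entries of an array. -/
theorem exists_functional (p : ι → ℕ)
    (N0 κ : ℕ) (hN0 : 1 < N0) (hκ : 1 ≤ κ) (hN : ∀ i, Nat.Coprime (p i) N0)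
    (hbig : ∀ i, Fintype.card ι * (κ * N0) < p i) (ω : ι → ℕ) :
    ∃ H, H < ∏ i, p i ∧ ∀ X, (∀ i, X % p i < κ) →
      X * H % (∏ i, p i) % N0 = (∑ i, X % p i * ω i) % N0 := by
  have hcofco : ∀ i, Nat.Coprime (cof p i) N0 := fun i =>
    Nat.Coprime.prod_left fun j _ => hN j
  have hppos : ∀ i, 0 < p i := fun i => lt_of_le_of_lt (Nat.zero_le _) (hbig i)
  have hMpos : 0 < ∏ i, p i := prod_pos fun i _ => hppos i
  have hlam : ∀ i, ∃ l, l < N0 ∧ l * cof p i ≡ ω i [MOD N0] := by
    intro i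
    obtain ⟨m, -, hm⟩ := Nat.exists_mul_mod_eq_one_of_coprime (hcofco i) hN0
    refine ⟨m * ω i % N0, Nat.mod_lt _ (by omega), ?_⟩
    have h1 : cof p i * m ≡ 1 [MOD N0] := by
      unfold Nat.ModEq
      rw [hm, Nat.mod_eq_of_lt hN0]
    calc m * ω i % N0 * cof p i ≡ m * ω i * cof p i [MOD N0] :=
          (Nat.mod_modEq _ _).mul_right _
      _ = cof p i * m * ω i := by ring
      _ ≡ 1 * ω i [MOD N0] := h1.mul_right _
      _ = ω i := one_mul _
  choose l hl hlω using hlam
  have hsmall : ∀ x : ι → ℕ, (∀ i, x i ≤ κ) → ∑ i, x i * (l i * cof p i) < ∏ i, p i := by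
    intro x hx
    refine sum_lt_of_card_mul_lt _ _ hMpos fun i => ?_
    have hc : 0 < cof p i := prod_pos fun j _ => hppos j
    calc Fintype.card ι * (x i * (l i * cof p i))
        = Fintype.card ι * (x i * l i) * cof p i := by ring
      _ ≤ Fintype.card ι * (κ * N0) * cof p i :=
          Nat.mul_le_mul_right _ (Nat.mul_le_mul_left _ (Nat.mul_le_mul (hx i) (hl i).le))
      _ < p i * cof p i := Nat.mul_lt_mul_of_pos_right (hbig i) hc
      _ = ∏ i, p i := mul_cof p i
  refine ⟨∑ i, l i * cof p i, ?_, ?_⟩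
  · have := hsmall (fun _ => 1) (fun _ => hκ)
    simpa using this
  · intro X hX
    have h1 : X * (∑ i, l i * cof p i) ≡ ∑ i, X % p i * (l i * cof p i) [MOD ∏ i, p i] := by
      rw [mul_sum]
      refine Nat.ModEq.sum fun i _ => ?_
      have h2 : X * cof p i ≡ X % p i * cof p i [MOD p i * cof p i] :=
        Nat.ModEq.mul_right' _ (Nat.mod_modEq X (p i)).symm
      rw [mul_cof] at h2
      calc X * (l i * cof p i) = X * cof p i * l i := by ring
        _ ≡ X % p i * cof p i * l i [MOD ∏ i, p i] := h2.mul_right _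
        _ = X % p i * (l i * cof p i) := by ring
    have h3 : X * (∑ i, l i * cof p i) % (∏ i, p i) = ∑ i, X % p i * (l i * cof p i) := by
      rw [h1, Nat.mod_eq_of_lt (hsmall _ fun i => (hX i).le)]
    rw [h3]
    refine Nat.ModEq.sum fun i _ => ?_
    exact (hlω i).mul_left _

/-- Uniqueness of digits. -/
theorem digits_unique (κ : ℕ) : ∀ (s : ℕ) (a b : Fin s → ℕ), (∀ i, a i < κ) → (∀ i, b i < κ) →
    ∑ i, a i * κ ^ (i : ℕ) = ∑ i, b i * κ ^ (i : ℕ) → a = b := by
  intro s
  induction s with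
  | zero =>
    intro a b _ _ _
    funext i
    exact i.elim0
  | succ s ih =>
    intro a b ha hb h
    have hκ : 0 < κ := lt_of_le_of_lt (Nat.zero_le _) (ha 0)
    rw [Fin.sum_univ_succ, Fin.sum_univ_succ] at h
    have e : ∀ c : Fin (s + 1) → ℕ, ∑ i : Fin s, c i.succ * κ ^ ((i.succ : Fin (s + 1)) : ℕ) =
        κ * ∑ i : Fin s, c i.succ * κ ^ (i : ℕ) := by
      intro c
      rw [mul_sum]
      refine sum_congr rfl fun i _ => ?_
      rw [Fin.val_succ, pow_succ]
      ring
    rw [e a, e b] at h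
    simp only [Fin.val_zero, pow_zero, mul_one] at h
    have h0 : a 0 = b 0 := by
      have h1 : (a 0 + κ * ∑ i : Fin s, a i.succ * κ ^ (i : ℕ)) % κ =
          (b 0 + κ * ∑ i : Fin s, b i.succ * κ ^ (i : ℕ)) % κ := by rw [h]
      rw [Nat.add_mul_mod_self_left, Nat.add_mul_mod_self_left, Nat.mod_eq_of_lt (ha 0),
        Nat.mod_eq_of_lt (hb 0)] at h1
      exact h1
    have h2 : ∑ i : Fin s, a i.succ * κ ^ (i : ℕ) = ∑ i : Fin s, b i.succ * κ ^ (i : ℕ) := by
      rw [h0] at h
      have h3 := Nat.add_left_cancel h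
      exact Nat.eq_of_mul_eq_mul_left hκ h3
    have h4 := ih (fun i => a i.succ) (fun i => b i.succ) (fun i => ha _) (fun i => hb _) h2
    funext i
    refine Fin.cases h0 (fun j => ?_) i
    exact congrFun h4 j

end Pool.Agent.DPoly
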