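import Mathlib

/-!
# Existential Diophantine predicates with polynomially bounded witnesses

`Dio P`: the predicate `P` on tuples of natural numbers is of the form `∃ y, g(v,y) = 0` for a
polynomial `g`, and whenever it holds there is a witness `y` all of whose entries are bounded by
a power of `2 + ∑ v`.
-/

namespace Pool.Agent.DPoly

open MvPolynomial

/-- Integer valued polynomial functions of natural number variables. -/
def PolyFun {σ : Type} (f : (σ → ℕ) → ℤ) : Prop :=
  ∃ p : MvPolynomial σ ℤ, ∀ v, f v = eval (fun i => (v i : ℤ)) p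

section polyfun

variable {σ τ : Type} {f g : (σ → ℕ) → ℤ}

theorem PolyFun.const (c : ℤ) : PolyFun (fun _ : σ → ℕ => c) := ⟨C c, fun v => by simp⟩

theorem PolyFun.coord (i : σ) : PolyFun (fun v : σ → ℕ => (v i : ℤ)) := ⟨X i, fun v => by simp⟩

theorem PolyFun.add (hf : PolyFun f) (hg : PolyFun g) : PolyFun (fun v => f v + g v) := by
  obtain ⟨p, hp⟩ := hf
  obtain ⟨q, hq⟩ := hg
  exact ⟨p + q, fun v => by simp [hp, hq]⟩

theorem PolyFun.mul (hf : PolyFun f) (hg : PolyFun g) : PolyFun (fun v => f v * g v) := by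
  obtain ⟨p, hp⟩ := hf
  obtain ⟨q, hq⟩ := hg
  exact ⟨p * q, fun v => by simp [hp, hq]⟩

theorem PolyFun.sub (hf : PolyFun f) (hg : PolyFun g) : PolyFun (fun v => f v - g v) := by
  obtain ⟨p, hp⟩ := hf
  obtain ⟨q, hq⟩ := hg
  exact ⟨p - q, fun v => by simp [hp, hq]⟩

theorem PolyFun.pow (hf : PolyFun f) (k : ℕ) : PolyFun (fun v => f v ^ k) := by
  obtain ⟨p, hp⟩ := hf
  exact ⟨p ^ k, fun v => by simp [hp]⟩

theorem PolyFun.sum {κ : Type} (s : Finset κ) {F : κ → (σ → ℕ) → ℤ}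
    (h : ∀ k ∈ s, PolyFun (F k)) : PolyFun (fun v => ∑ k ∈ s, F k v) := by
  classical
  induction s using Finset.induction_on with
  | empty => simpa using PolyFun.const (σ := σ) 0
  | insert a s ha ih =>
    have h1 := (h a (Finset.mem_insert_self a s)).add
      (ih fun k hk => h k (Finset.mem_insert_of_mem hk))
    simpa [Finset.sum_insert ha] using h1

theorem PolyFun.prod {κ : Type} (s : Finset κ) {F : κ → (σ → ℕ) → ℤ}
    (h : ∀ k ∈ s, PolyFun (F k)) : PolyFun (fun v => ∏ k ∈ s, F k v) := by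
  classical
  induction s using Finset.induction_on with
  | empty => simpa using PolyFun.const (σ := σ) 1
  | insert a s ha ih =>
    have h1 := (h a (Finset.mem_insert_self a s)).mul
      (ih fun k hk => h k (Finset.mem_insert_of_mem hk))
    simpa [Finset.prod_insert ha] using h1

/-- Renaming the variables. -/
theorem PolyFun.comp (hf : PolyFun f) (e : σ → τ) :
    PolyFun (fun v : τ → ℕ => f (fun i => v (e i))) := by
  obtain ⟨p, hp⟩ := hf
  refine ⟨rename e p, fun v => ?_⟩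
  rw [eval_rename]
  exact hp _

/-- Polynomial functions are bounded by a power. -/
theorem PolyFun.bound [Fintype σ] (hf : PolyFun f) :
    ∃ e : ℕ, ∀ v, |f v| ≤ ((2 + ∑ i, v i : ℕ) : ℤ) ^ e := by
  obtain ⟨p, hp⟩ := hf
  suffices key : ∃ e : ℕ, ∀ v : σ → ℕ, |eval (fun i => (v i : ℤ)) p| ≤
      ((2 + ∑ i, v i : ℕ) : ℤ) ^ e by
    obtain ⟨e, he⟩ := key
    exact ⟨e, fun v => by rw [hp]; exact he v⟩
  clear hp
  induction p using MvPolynomial.induction_on with
    | C a =>
      refine ⟨a.natAbs, fun v => ?_⟩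
      simp only [eval_C]
      have h1 : (a.natAbs : ℤ) ≤ (2 : ℤ) ^ a.natAbs := by
        exact_mod_cast (Nat.lt_two_pow_self).le
      rw [← Int.natCast_natAbs]
      refine h1.trans (pow_le_pow_left₀ (by norm_num) ?_ _)
      push_cast
      have : (0 : ℤ) ≤ ∑ i, (v i : ℤ) := Finset.sum_nonneg fun i _ => by positivity
      linarith
    | add p q ihp ihq =>
      obtain ⟨e1, h1⟩ := ihp
      obtain ⟨e2, h2⟩ := ihq
      refine ⟨max e1 e2 + 1, fun v => ?_⟩
      have hX : (2 : ℤ) ≤ ((2 + ∑ i, v i : ℕ) : ℤ) := by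
        push_cast
        have : (0 : ℤ) ≤ ∑ i, (v i : ℤ) := Finset.sum_nonneg fun i _ => by positivity
        linarith
      set X : ℤ := ((2 + ∑ i, v i : ℕ) : ℤ) with hXdef
      have g1 : X ^ e1 ≤ X ^ max e1 e2 := pow_le_pow_right₀ (by linarith) (le_max_left _ _)
      have g2 : X ^ e2 ≤ X ^ max e1 e2 := pow_le_pow_right₀ (by linarith) (le_max_right _ _)
      have g3 : (0 : ℤ) ≤ X ^ max e1 e2 := by positivity
      rw [map_add, pow_succ]
      calc |eval (fun i => (v i : ℤ)) p + eval (fun i => (v i : ℤ)) q|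
          ≤ |eval (fun i => (v i : ℤ)) p| + |eval (fun i => (v i : ℤ)) q| := abs_add_le _ _
        _ ≤ X ^ max e1 e2 + X ^ max e1 e2 := add_le_add ((h1 v).trans g1) ((h2 v).trans g2)
        _ ≤ X ^ max e1 e2 * X := by nlinarith
    | mul_X p i ih =>
      obtain ⟨e, h⟩ := ih
      refine ⟨e + 1, fun v => ?_⟩
      have hX : (2 : ℤ) ≤ ((2 + ∑ i, v i : ℕ) : ℤ) := by
        push_cast
        have : (0 : ℤ) ≤ ∑ i, (v i : ℤ) := Finset.sum_nonneg fun i _ => by positivity
        linarith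
      have hi : (v i : ℤ) ≤ ((2 + ∑ i, v i : ℕ) : ℤ) := by
        have : v i ≤ ∑ i, v i := Finset.single_le_sum (fun _ _ => Nat.zero_le _)
          (Finset.mem_univ i)
        exact_mod_cast this.trans (Nat.le_add_left _ _)
      rw [map_mul, eval_X, abs_mul, pow_succ]
      refine mul_le_mul (h v) ?_ (abs_nonneg _) (by positivity)
      rw [abs_of_nonneg (by positivity)]
      exact hi

end polyfun

/-- Existential Diophantine predicates with polynomially bounded witnesses. -/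
def Dio {σ : Type} [Fintype σ] (P : (σ → ℕ) → Prop) : Prop :=
  ∃ (τ : Type) (_ : Fintype τ) (d : ℕ) (g : (σ ⊕ τ → ℕ) → ℤ), PolyFun g ∧
    (∀ v, P v → ∃ y : τ → ℕ, (∀ j, y j ≤ (2 + ∑ i, v i) ^ d) ∧ g (Sum.elim v y) = 0) ∧
    (∀ v y, g (Sum.elim v y) = 0 → P v)

section dio

variable {σ : Type} [Fintype σ]

theorem pow_mono_base (v : σ → ℕ) {d d' : ℕ} (h : d ≤ d') :
    (2 + ∑ i, v i) ^ d ≤ (2 + ∑ i, v i) ^ d' :=
  Nat.pow_le_pow_right (by omega) h

theorem Dio.congr {P Q : (σ → ℕ) → Prop} (h : Dio P) (hPQ : ∀ v, P v ↔ Q v) : Dio Q := by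
  obtain ⟨τ, _, d, g, hg, h1, h2⟩ := h
  exact ⟨τ, inferInstance, d, g, hg, fun v hv => h1 v ((hPQ v).2 hv),
    fun v y hy => (hPQ v).1 (h2 v y hy)⟩

/-- The zero set of a polynomial. -/
theorem Dio.eq0 {f : (σ → ℕ) → ℤ} (hf : PolyFun f) : Dio (fun v => f v = 0) := by
  refine ⟨Empty, inferInstance, 0, fun v => f (fun i => v (Sum.inl i)), hf.comp _, ?_, ?_⟩
  · intro v hv
    exact ⟨Empty.elim, fun j => j.elim, hv⟩
  · intro v y hy
    exact hy

theorem Dio.eq {f g : (σ → ℕ) → ℤ} (hf : PolyFun f) (hg : PolyFun g) :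
    Dio (fun v => f v = g v) :=
  (Dio.eq0 (hf.sub hg)).congr fun v => sub_eq_zero

theorem Dio.and {P Q : (σ → ℕ) → Prop} (hP : Dio P) (hQ : Dio Q) : Dio (fun v => P v ∧ Q v) := by
  obtain ⟨τ1, _, d1, g1, hg1, h1, h1'⟩ := hP
  obtain ⟨τ2, _, d2, g2, hg2, h2, h2'⟩ := hQ
  let e1 : σ ⊕ τ1 → σ ⊕ (τ1 ⊕ τ2) := Sum.elim Sum.inl (fun j => Sum.inr (Sum.inl j))
  let e2 : σ ⊕ τ2 → σ ⊕ (τ1 ⊕ τ2) := Sum.elim Sum.inl (fun j => Sum.inr (Sum.inr j))
  have k1 : ∀ (v : σ → ℕ) (y : τ1 ⊕ τ2 → ℕ), (fun i => Sum.elim v y (e1 i)) =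
      Sum.elim v (fun j => y (Sum.inl j)) := by
    intro v y
    funext i
    rcases i with i | i <;> rfl
  have k2 : ∀ (v : σ → ℕ) (y : τ1 ⊕ τ2 → ℕ), (fun i => Sum.elim v y (e2 i)) =
      Sum.elim v (fun j => y (Sum.inr j)) := by
    intro v y
    funext i
    rcases i with i | i <;> rfl
  refine ⟨τ1 ⊕ τ2, inferInstance, max d1 d2,
    fun v => g1 (fun i => v (e1 i)) ^ 2 + g2 (fun i => v (e2 i)) ^ 2,
    ((hg1.comp e1).pow 2).add ((hg2.comp e2).pow 2), ?_, ?_⟩
  · rintro v ⟨hp, hq⟩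
    obtain ⟨y1, b1, z1⟩ := h1 v hp
    obtain ⟨y2, b2, z2⟩ := h2 v hq
    refine ⟨Sum.elim y1 y2, ?_, ?_⟩
    · rintro (j | j)
      · exact (b1 j).trans (pow_mono_base v (le_max_left _ _))
      · exact (b2 j).trans (pow_mono_base v (le_max_right _ _))
    · simp only [k1, k2, Sum.elim_inl, Sum.elim_inr]
      rw [show (fun j => y1 j) = y1 from rfl, show (fun j => y2 j) = y2 from rfl, z1, z2]
      norm_num
  · intro v y hy
    simp only [k1, k2] at hy
    have a1 := sq_nonneg (g1 (Sum.elim v fun j => y (Sum.inl j)))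
    have a2 := sq_nonneg (g2 (Sum.elim v fun j => y (Sum.inr j)))
    have b1 : g1 (Sum.elim v fun j => y (Sum.inl j)) ^ 2 = 0 := by linarith
    have b2 : g2 (Sum.elim v fun j => y (Sum.inr j)) ^ 2 = 0 := by linarith
    exact ⟨h1' v _ (pow_eq_zero_iff (by norm_num) |>.1 b1),
      h2' v _ (pow_eq_zero_iff (by norm_num) |>.1 b2)⟩

theorem Dio.or {P Q : (σ → ℕ) → Prop} (hP : Dio P) (hQ : Dio Q) : Dio (fun v => P v ∨ Q v) := by
  obtain ⟨τ1, _, d1, g1, hg1, h1, h1'⟩ := hP
  obtain ⟨τ2, _, d2, g2, hg2, h2, h2'⟩ := hQ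
  let e1 : σ ⊕ τ1 → σ ⊕ (τ1 ⊕ τ2) := Sum.elim Sum.inl (fun j => Sum.inr (Sum.inl j))
  let e2 : σ ⊕ τ2 → σ ⊕ (τ1 ⊕ τ2) := Sum.elim Sum.inl (fun j => Sum.inr (Sum.inr j))
  have k1 : ∀ (v : σ → ℕ) (y : τ1 ⊕ τ2 → ℕ), (fun i => Sum.elim v y (e1 i)) =
      Sum.elim v (fun j => y (Sum.inl j)) := by
    intro v y
    funext i
    rcases i with i | i <;> rfl
  have k2 : ∀ (v : σ → ℕ) (y : τ1 ⊕ τ2 → ℕ), (fun i => Sum.elim v y (e2 i)) =
      Sum.elim v (fun j => y (Sum.inr j)) := by
    intro v y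
    funext i
    rcases i with i | i <;> rfl
  refine ⟨τ1 ⊕ τ2, inferInstance, max d1 d2,
    fun v => g1 (fun i => v (e1 i)) * g2 (fun i => v (e2 i)),
    (hg1.comp e1).mul (hg2.comp e2), ?_, ?_⟩
  · rintro v (hp | hq)
    · obtain ⟨y1, b1, z1⟩ := h1 v hp
      refine ⟨Sum.elim y1 (fun _ => 0), ?_, ?_⟩
      · rintro (j | j)
        · exact (b1 j).trans (pow_mono_base v (le_max_left _ _))
        · exact Nat.zero_le _
      · simp only [k1, k2, Sum.elim_inl, Sum.elim_inr]
        rw [show (fun j => y1 j) = y1 from rfl, z1]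
        norm_num
    · obtain ⟨y2, b2, z2⟩ := h2 v hq
      refine ⟨Sum.elim (fun _ => 0) y2, ?_, ?_⟩
      · rintro (j | j)
        · exact Nat.zero_le _
        · exact (b2 j).trans (pow_mono_base v (le_max_right _ _))
      · simp only [k1, k2, Sum.elim_inl, Sum.elim_inr]
        rw [show (fun j => y2 j) = y2 from rfl, z2]
        norm_num
  · intro v y hy
    simp only [k1, k2] at hy
    rcases mul_eq_zero.1 hy with h | h
    · exact Or.inl (h1' v _ h)
    · exact Or.inr (h2' v _ h)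

/-- Finite conjunctions. -/
theorem Dio.all {κ : Type} [Fintype κ] {P : κ → (σ → ℕ) → Prop} (h : ∀ k, Dio (P k)) :
    Dio (fun v => ∀ k, P k v) := by
  classical
  have key : ∀ s : Finset κ, Dio (fun v => ∀ k ∈ s, P k v) := by
    intro s
    induction s using Finset.induction_on with
    | empty =>
      refine (Dio.eq0 (PolyFun.const (σ := σ) 0)).congr fun v => ?_
      simp
    | insert a s _ ih =>
      refine ((h a).and ih).congr fun v => ?_
      simp
  exact (key Finset.univ).congr fun v => by simp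

/-- Bounded existential quantification over several variables. -/
theorem Dio.exs {τ : Type} [Fintype τ] {Q : (σ ⊕ τ → ℕ) → Prop} (hQ : Dio Q) (e : ℕ)
    (h : ∀ v : σ → ℕ, (∃ w : τ → ℕ, Q (Sum.elim v w)) →
      ∃ w : τ → ℕ, (∀ j, w j ≤ (2 + ∑ i, v i) ^ e) ∧ Q (Sum.elim v w)) :
    Dio (fun v : σ → ℕ => ∃ w : τ → ℕ, Q (Sum.elim v w)) := by
  obtain ⟨ρ, _, d, g, hg, h1, h2⟩ := hQ
  let E : (σ ⊕ τ) ⊕ ρ → σ ⊕ (τ ⊕ ρ) :=
    Sum.elim (Sum.elim Sum.inl (fun j => Sum.inr (Sum.inl j))) (fun j => Sum.inr (Sum.inr j))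
  have k : ∀ (v : σ → ℕ) (y : τ ⊕ ρ → ℕ), (fun i => Sum.elim v y (E i)) =
      Sum.elim (Sum.elim v (fun j => y (Sum.inl j))) (fun j => y (Sum.inr j)) := by
    intro v y
    funext i
    rcases i with (i | i) | i <;> rfl
  refine ⟨τ ⊕ ρ, inferInstance, e + (Fintype.card τ + e + 2) * d,
    fun v => g (fun i => v (E i)), hg.comp E, ?_, ?_⟩
  · intro v hv
    obtain ⟨w, bw, qw⟩ := h v hv
    obtain ⟨y, bY, zy⟩ := h1 _ qw
    refine ⟨Sum.elim w y, ?_, ?_⟩
    · have hX : 2 ≤ 2 + ∑ i, v i := by omega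
      rintro (j | j)
      · exact (bw j).trans (pow_mono_base v (by omega))
      · refine (bY j).trans ?_
        have hs : 2 + ∑ i, Sum.elim v w i ≤ (2 + ∑ i, v i) ^ (Fintype.card τ + e + 2) := by
          rw [Fintype.sum_sum_type]
          simp only [Sum.elim_inl, Sum.elim_inr]
          have hw : ∑ j, w j ≤ Fintype.card τ * (2 + ∑ i, v i) ^ e := by
            calc ∑ j, w j ≤ ∑ _j : τ, (2 + ∑ i, v i) ^ e := Finset.sum_le_sum fun j _ => bw j
              _ = Fintype.card τ * (2 + ∑ i, v i) ^ e := by simp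
          set X := 2 + ∑ i, v i with hXd
          have hc : Fintype.card τ ≤ X ^ Fintype.card τ :=
            (Nat.lt_pow_self (by omega)).le
          have h3 : Fintype.card τ * X ^ e ≤ X ^ (Fintype.card τ + e) := by
            rw [pow_add]
            exact Nat.mul_le_mul_right _ hc
          have h4 : X ≤ X ^ (Fintype.card τ + e + 1) := by
            calc X = X ^ 1 := (pow_one X).symm
              _ ≤ X ^ (Fintype.card τ + e + 1) := Nat.pow_le_pow_right (by omega) (by omega)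
          have h5 : X ^ (Fintype.card τ + e) ≤ X ^ (Fintype.card τ + e + 1) :=
            Nat.pow_le_pow_right (by omega) (by omega)
          calc 2 + (∑ i, v i + ∑ j, w j) = X + ∑ j, w j := by omega
            _ ≤ X ^ (Fintype.card τ + e + 1) + X ^ (Fintype.card τ + e + 1) := by omega
            _ = X ^ (Fintype.card τ + e + 1) * 2 := by ring
            _ ≤ X ^ (Fintype.card τ + e + 1) * X := Nat.mul_le_mul_left _ hX
            _ = X ^ (Fintype.card τ + e + 2) := by rw [← pow_succ]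
        calc (2 + ∑ i, Sum.elim v w i) ^ d ≤ ((2 + ∑ i, v i) ^ (Fintype.card τ + e + 2)) ^ d :=
              Nat.pow_le_pow_left hs d
          _ = (2 + ∑ i, v i) ^ ((Fintype.card τ + e + 2) * d) := by rw [← pow_mul]
          _ ≤ _ := pow_mono_base v (by omega)
    · simp only [k, Sum.elim_inl, Sum.elim_inr]
      exact zy
  · intro v y hy
    simp only [k] at hy
    exact ⟨_, h2 _ _ hy⟩

/-- Inequalities. -/
theorem Dio.le {f g : (σ → ℕ) → ℤ} (hf : PolyFun f) (hg : PolyFun g) :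
    Dio (fun v => f v ≤ g v) := by
  obtain ⟨e, he⟩ := (hg.sub hf).bound
  refine ⟨Unit, inferInstance, e,
    fun v => f (fun i => v (Sum.inl i)) + (v (Sum.inr ()) : ℤ) - g (fun i => v (Sum.inl i)),
    ((hf.comp _).add (PolyFun.coord _)).sub (hg.comp _), ?_, ?_⟩
  · intro v hv
    refine ⟨fun _ => (g v - f v).toNat, ?_, ?_⟩
    · intro _
      have h1 := he v
      rw [abs_of_nonneg (sub_nonneg.2 hv)] at h1
      have : ((g v - f v).toNat : ℤ) ≤ (((2 + ∑ i, v i) ^ e : ℕ) : ℤ) := by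
        rw [Int.toNat_of_nonneg (sub_nonneg.2 hv)]
        exact_mod_cast h1
      exact_mod_cast this
    · simp only [Sum.elim_inl, Sum.elim_inr]
      rw [Int.toNat_of_nonneg (sub_nonneg.2 hv)]
      ring
  · intro v y hy
    simp only [Sum.elim_inl, Sum.elim_inr] at hy
    have : (0 : ℤ) ≤ (y () : ℤ) := by positivity
    linarith

theorem Dio.lt {f g : (σ → ℕ) → ℤ} (hf : PolyFun f) (hg : PolyFun g) :
    Dio (fun v => f v < g v) :=
  (Dio.le (hf.add (PolyFun.const 1)) hg).congr fun v => Int.add_one_le_iff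

/-- Divisibility. -/
theorem Dio.dvd {f g : (σ → ℕ) → ℤ} (hf : PolyFun f) (hg : PolyFun g) :
    Dio (fun v => f v ∣ g v) := by
  obtain ⟨e, he⟩ := hg.bound
  refine ⟨Bool, inferInstance, e,
    fun v => f (fun i => v (Sum.inl i)) * ((v (Sum.inr true) : ℤ) - (v (Sum.inr false) : ℤ)) -
      g (fun i => v (Sum.inl i)),
    ((hf.comp _).mul ((PolyFun.coord _).sub (PolyFun.coord _))).sub (hg.comp _), ?_, ?_⟩
  · intro v hv
    obtain ⟨t, ht, hb⟩ : ∃ t : ℤ, g v = f v * t ∧ |t| ≤ |g v| := by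
      by_cases h0 : f v = 0
      · refine ⟨0, ?_, ?_⟩
        · have : g v = 0 := by
            rw [h0] at hv
            exact zero_dvd_iff.1 hv
          rw [this]; ring
        · simp
      · obtain ⟨t, ht⟩ := hv
        refine ⟨t, ht, ?_⟩
        rw [ht, abs_mul]
        have : 1 ≤ |f v| := Int.one_le_abs h0
        nlinarith [abs_nonneg t]
    have hb' : |t| ≤ (((2 + ∑ i, v i) ^ e : ℕ) : ℤ) := by
      refine hb.trans ((he v).trans ?_)
      push_cast
      exact le_refl _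
    refine ⟨fun b => if b then t.toNat else (-t).toNat, ?_, ?_⟩
    · intro b
      rcases b with _ | _
      · simp only [Bool.false_eq_true, if_false]
        have h1 : ((-t).toNat : ℤ) ≤ |t| := by
          rw [Int.toNat_eq_max]
          exact max_le (neg_le_abs t) (abs_nonneg t)
        exact_mod_cast h1.trans hb'
      · simp only [if_true]
        have h1 : (t.toNat : ℤ) ≤ |t| := by
          rw [Int.toNat_eq_max]
          exact max_le (le_abs_self t) (abs_nonneg t)
        exact_mod_cast h1.trans hb'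
    · simp only [Sum.elim_inl, Sum.elim_inr, if_true, Bool.false_eq_true, if_false]
      have h1 : (t.toNat : ℤ) - ((-t).toNat : ℤ) = t := by omega
      rw [h1, ← ht]
      ring
  · intro v y hy
    simp only [Sum.elim_inl, Sum.elim_inr] at hy
    exact ⟨_, (sub_eq_zero.1 hy).symm⟩

/-- Renaming the variables (injectivity is not needed). -/
theorem Dio.comp {σ' : Type} [Fintype σ'] {P : (σ → ℕ) → Prop} (hP : Dio P) (e : σ → σ') :
    Dio (fun v : σ' → ℕ => P (fun i => v (e i))) := by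
  obtain ⟨τ, _, d, g, hg, h1, h2⟩ := hP
  let E : σ ⊕ τ → σ' ⊕ τ := Sum.map e id
  have k : ∀ (v : σ' → ℕ) (y : τ → ℕ), (fun i => Sum.elim v y (E i)) =
      Sum.elim (fun i => v (e i)) y := by
    intro v y
    funext i
    rcases i with i | i <;> rfl
  refine ⟨τ, inferInstance, (Fintype.card σ + 2) * d, fun v => g (fun i => v (E i)),
    hg.comp E, ?_, ?_⟩
  · intro v hv
    obtain ⟨y, b, z⟩ := h1 _ hv
    refine ⟨y, fun j => (b j).trans ?_, ?_⟩
    · have hs : 2 + ∑ i, v (e i) ≤ (2 + ∑ i, v i) ^ (Fintype.card σ + 2) := by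
        have h3 : ∑ i, v (e i) ≤ Fintype.card σ * ∑ i, v i := by
          calc ∑ i, v (e i) ≤ ∑ _i : σ, ∑ i, v i := Finset.sum_le_sum fun i _ =>
                Finset.single_le_sum (fun _ _ => Nat.zero_le _) (Finset.mem_univ (e i))
            _ = Fintype.card σ * ∑ i, v i := by simp
        set X := 2 + ∑ i, v i with hXd
        have hc : Fintype.card σ ≤ X ^ Fintype.card σ := (Nat.lt_pow_self (by omega)).le
        have h4 : Fintype.card σ * ∑ i, v i ≤ X ^ Fintype.card σ * X :=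
          Nat.mul_le_mul hc (by omega)
        have h6 : 1 ≤ X ^ Fintype.card σ := Nat.one_le_pow _ _ (by omega)
        have hX2 : 2 ≤ X := by omega
        have h5 : 2 ≤ X ^ Fintype.card σ * X := by nlinarith
        calc 2 + ∑ i, v (e i) ≤ X ^ Fintype.card σ * X + X ^ Fintype.card σ * X := by omega
          _ = X ^ Fintype.card σ * X * 2 := by ring
          _ ≤ X ^ Fintype.card σ * X * X := Nat.mul_le_mul_left _ (by omega)
          _ = X ^ (Fintype.card σ + 2) := by ring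
      calc (2 + ∑ i, v (e i)) ^ d ≤ ((2 + ∑ i, v i) ^ (Fintype.card σ + 2)) ^ d :=
            Nat.pow_le_pow_left hs d
        _ = _ := by rw [← pow_mul]
    · simp only [k]
      exact z
  · intro v y hy
    simp only [k] at hy
    exact h2 _ _ hy

end dio

end Pool.Agent.DPoly
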