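import Pool.Agent.DPoly.Mod
import Pool.Agent.DPoly.Word

/-!
# The input predicate is Diophantine; one advice number; the class `D`
-/

namespace Pool.Agent.DPoly

open Finset

/-- The input predicate is Diophantine. -/
theorem dio_inpP (n : ℕ) :
    Dio (fun v : (Fin n ⊕ Unit) ⊕ Fin 4 → ℕ =>
      InpP (fun i => v (.inl (.inl i))) (v (.inl (.inr ()))) (fun r => v (.inr r))) := by
  let A : Fin n → ((Fin n ⊕ Unit) ⊕ Fin 4) ⊕ (Fin n ⊕ Fin (n + 1)) := fun i => .inl (.inl (.inl i))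
  let E : ((Fin n ⊕ Unit) ⊕ Fin 4) ⊕ (Fin n ⊕ Fin (n + 1)) := .inl (.inl (.inr ()))
  let t : Fin 4 → ((Fin n ⊕ Unit) ⊕ Fin 4) ⊕ (Fin n ⊕ Fin (n + 1)) := fun r => .inl (.inr r)
  let P : Fin n → ((Fin n ⊕ Unit) ⊕ Fin 4) ⊕ (Fin n ⊕ Fin (n + 1)) := fun i => .inr (.inl i)
  let W : Fin (n + 1) → ((Fin n ⊕ Unit) ⊕ Fin 4) ⊕ (Fin n ⊕ Fin (n + 1)) := fun i => .inr (.inr i)
  let Q : (((Fin n ⊕ Unit) ⊕ Fin 4) ⊕ (Fin n ⊕ Fin (n + 1)) → ℕ) → Prop := fun v =>
    (∀ i : Fin n, v (P i) ∣ v E ∧ v (A i) < v (P i) ∧ (v (P i) = 2 ∨ v (P i) ≤ 2 * v (A i))) ∧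
    v (W (Fin.last n)) = 1 ∧
    (∀ i : Fin n, v (W i.castSucc) = 2 * v (P i) * v (W i.succ)) ∧
    v (t 0) = ∑ i : Fin n, 2 * v (A i) * v (W i.succ) ∧
    v (t 1) = ∑ i : Fin n, v (W i.succ) ∧ v (t 2) + 1 = v (W 0) ∧ v (t 3) = 1
  have hQ : Dio Q := by
    refine (Dio.all fun i => ?_).and (?_ : Dio _) 
    · exact (Dio.natDvd (NPoly.coord (P i)) (NPoly.coord E)).and
        ((Dio.natLt (NPoly.coord (A i)) (NPoly.coord (P i))).and
          ((Dio.natEq (NPoly.coord (P i)) (NPoly.const 2)).or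
            (Dio.natLe (NPoly.coord (P i)) ((NPoly.const 2).mul (NPoly.coord (A i))))))
    · refine (Dio.natEq (NPoly.coord _) (NPoly.const 1)).and ?_
      refine (Dio.all fun i => Dio.natEq (NPoly.coord _)
        (((NPoly.const 2).mul (NPoly.coord _)).mul (NPoly.coord _))).and ?_
      refine (Dio.natEq (NPoly.coord _) (NPoly.sum _ fun i _ =>
        ((NPoly.const 2).mul (NPoly.coord _)).mul (NPoly.coord _))).and ?_
      refine (Dio.natEq (NPoly.coord _) (NPoly.sum _ fun i _ => NPoly.coord _)).and ?_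
      exact (Dio.natEq ((NPoly.coord _).add (NPoly.const 1)) (NPoly.coord _)).and
        (Dio.natEq (NPoly.coord _) (NPoly.const 1))
  refine (Dio.exs hQ 2 ?_).congr fun v => ?_
  · rintro v ⟨w, hw⟩
    refine ⟨w, ?_, hw⟩
    obtain ⟨h1, h2, h3, h4, h5, h6, h7⟩ := hw
    simp only [P, W, A, E, t, Sum.elim_inl, Sum.elim_inr] at h1 h2 h3 h4 h5 h6 h7
    have hle : ∀ i, v i ≤ ∑ i, v i := fun i =>
      Finset.single_le_sum (fun _ _ => Nat.zero_le _) (Finset.mem_univ i)
    rintro (i | i)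
    · have ha := hle (.inl (.inl i))
      have : w (.inl i) ≤ 2 + 2 * v (.inl (.inl i)) := by
        rcases (h1 i).2.2 with h | h <;> omega
      nlinarith
    · have hW : ∀ i : Fin (n + 1), w (.inr i) ≤ w (.inr 0) := by
        intro i
        induction i using Fin.induction with
        | zero => exact le_rfl
        | succ i ih =>
          refine le_trans ?_ ih
          rw [h3 i]
          have hp := (h1 i).2.1
          have : 1 ≤ w (.inl i) := by omega
          nlinarith [Nat.zero_le (w (.inr i.succ))]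
      have h8 := hW i
      have h9 := hle (.inr 2)
      have : w (.inr i) ≤ 2 + ∑ i, v i := by omega
      nlinarith
  · constructor
    · rintro ⟨w, h1, h2, h3, h4, h5, h6, h7⟩
      exact ⟨fun i => w (.inl i), fun i => w (.inr i), h1, h2, h3, h4, h5, h6, h7⟩
    · rintro ⟨p, w, h1, h2, h3, h4, h5, h6, h7⟩
      exact ⟨Sum.elim p w, h1, h2, h3, h4, h5, h6, h7⟩

/-- A polynomial pairing function. -/
theorem pair_inj {a b a' b' : ℕ} (h : (a + b) * (a + b) + a = (a' + b') * (a' + b') + a') :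
    a = a' ∧ b = b' := by
  rcases lt_trichotomy (a + b) (a' + b') with h1 | h1 | h1
  · exfalso
    have : (a + b + 1) * (a + b + 1) ≤ (a' + b') * (a' + b') := Nat.mul_le_mul h1 h1
    nlinarith
  · rw [h1] at h
    omega
  · exfalso
    have : (a' + b' + 1) * (a' + b' + 1) ≤ (a + b) * (a + b) := Nat.mul_le_mul h1 h1
    nlinarith

/-- A polynomial tupling function. -/
theorem exists_pack (m : ℕ) : ∃ F : (Fin m → ℕ) → ℕ, NPoly F ∧ Function.Injective F ∧
    ∀ x i, x i ≤ F x := by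
  induction m with
  | zero =>
    exact ⟨fun _ => 0, NPoly.const 0, fun x y _ => Subsingleton.elim _ _, fun x i => i.elim0⟩
  | succ m ih =>
    obtain ⟨F, h1, h2, h3⟩ := ih
    have hc : NPoly (fun x : Fin (m + 1) → ℕ => F (fun i => x i.succ)) :=
      PolyFun.comp h1 Fin.succ
    refine ⟨fun x => (x 0 + F (fun i => x i.succ)) * (x 0 + F (fun i => x i.succ)) + x 0,
      (((NPoly.coord 0).add hc).mul ((NPoly.coord 0).add hc)).add (NPoly.coord 0), ?_, ?_⟩
    · intro x y h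
      obtain ⟨h4, h5⟩ := pair_inj h
      funext i
      refine Fin.cases h4 (fun j => ?_) i
      exact congrFun (h2 h5) j
    · intro x i
      refine Fin.cases ?_ (fun j => ?_) i
      · change x 0 ≤ _ + x 0
        omega
      · have h4 := h3 (fun i => x i.succ) j
        have h5 : F (fun i => x i.succ) ≤ (x 0 + F (fun i => x i.succ)) *
            (x 0 + F (fun i => x i.succ)) :=
          le_trans (Nat.le_add_left _ _) (Nat.le_mul_self _)
        change x j.succ ≤ _ + x 0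
        have h6 : x j.succ ≤ F (fun i => x i.succ) := h4
        omega

theorem exists_pack' (σ : Type) [Fintype σ] : ∃ F : (σ → ℕ) → ℕ, NPoly F ∧
    Function.Injective F ∧ ∀ x i, x i ≤ F x := by
  obtain ⟨F, h1, h2, h3⟩ := exists_pack (Fintype.card σ)
  let e := Fintype.equivFin σ
  refine ⟨fun x => F (fun i => x (e.symm i)), PolyFun.comp h1 e.symm, ?_, ?_⟩
  · intro x y h
    have h4 := h2 h
    funext i
    have := congrFun h4 (e i)
    simpa using this
  · intro x i
    have := h3 (fun i => x (e.symm i)) (e i)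
    simpa using this

/-- The predicate with one advice number. -/
theorem dio_total (n : ℕ) {κ : ℕ} (ρ : (Fin 5 → Fin κ) → Prop) {F : (AI → ℕ) → ℕ} (hF : NPoly F)
    (hF' : ∀ x i, x i ≤ F x) :
    Dio (fun v : Fin (n + 1) → ℕ => ∃ w : AI ⊕ Fin 4 → ℕ,
      v (Fin.last n) = F (fun i => w (.inl i)) + 2 ∧
      InpP (fun i => v (Fin.castSucc i)) (w (.inl (.inl 4))) (fun r => w (.inr r)) ∧
      ArrP ρ (fun i => w (.inl i)) (fun r => w (.inr r))) := by
  let e1 : (Fin n ⊕ Unit) ⊕ Fin 4 → Fin (n + 1) ⊕ (AI ⊕ Fin 4) :=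
    Sum.elim (Sum.elim (fun i => .inl (Fin.castSucc i)) (fun _ => .inr (.inl (.inl 4))))
      (fun r => .inr (.inr r))
  have q1 : Dio (fun v : Fin (n + 1) ⊕ (AI ⊕ Fin 4) → ℕ =>
      v (.inl (Fin.last n)) = F (fun i => v (.inr (.inl i))) + 2) := by
    have hc : NPoly (fun v : Fin (n + 1) ⊕ (AI ⊕ Fin 4) → ℕ => F (fun i => v (.inr (.inl i)))) :=
      PolyFun.comp hF (fun i => Sum.inr (Sum.inl i))
    exact Dio.natEq (NPoly.coord _) (hc.add (NPoly.const 2))
  have q2 := (dio_inpP n).comp e1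
  have q3 := (dio_arrP ρ).comp (σ' := Fin (n + 1) ⊕ (AI ⊕ Fin 4)) Sum.inr
  have hQ := q1.and (q2.and q3)
  refine (Dio.exs hQ 1 ?_).congr fun v => ?_
  · rintro v ⟨w, hw⟩
    refine ⟨w, ?_, hw⟩
    obtain ⟨h1, -, h2⟩ := hw
    simp only [Sum.elim_inl, Sum.elim_inr] at h1 h2
    have hlast : v (Fin.last n) ≤ ∑ i, v i :=
      Finset.single_le_sum (fun _ _ => Nat.zero_le _) (Finset.mem_univ _)
    have hadv : ∀ i, w (.inl i) ≤ 2 + ∑ i, v i := by
      intro i
      have h6 : w (.inl i) ≤ F (fun i => w (.inl i)) := hF' (fun i => w (.inl i)) i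
      omega
    rw [pow_one]
    rintro (i | r)
    · exact hadv i
    · obtain ⟨-, h3, Z, A, -, -, h4⟩ := h2
      have h5 := h4.2.2.2.2 r
      have h6 : w (.inr r) < w (.inl (.inl 1)) := by
        refine lt_of_eq_of_lt h5.symm ?_
        exact Nat.mod_lt _ h3
      exact h6.le.trans (hadv _)
  · exact Iff.rfl

end Pool.Agent.DPoly
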