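import Mathlib

/-!
# Binary values of words
-/

namespace Pool.Agent.DPoly

open Finset

/-- The number with the binary digits `φ c`, `c ∈ w`, most significant digit first. -/
def val (φ : Option Bool → Bool) (w : List (Option Bool)) : ℕ :=
  w.foldl (fun a c => Nat.bit (φ c) a) 0

theorem val_nil (φ : Option Bool → Bool) : val φ [] = 0 := rfl

theorem val_snoc (φ : Option Bool → Bool) (w : List (Option Bool)) (c : Option Bool) :
    val φ (w ++ [c]) = Nat.bit (φ c) (val φ w) := by
  simp [val]

theorem val_append (φ : Option Bool → Bool) (w w' : List (Option Bool)) :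
    val φ (w ++ w') = val φ w * 2 ^ w'.length + val φ w' := by
  induction w' using List.reverseRecOn with
  | nil => simp [val_nil]
  | append_singleton w' c ih =>
    rw [← List.append_assoc, val_snoc, val_snoc, ih, List.length_append, List.length_singleton,
      Nat.bit_val, Nat.bit_val, pow_succ]
    ring

theorem val_lt (φ : Option Bool → Bool) (w : List (Option Bool)) : val φ w < 2 ^ w.length := by
  induction w using List.reverseRecOn with
  | nil => simp [val_nil]
  | append_singleton w c ih =>
    rw [val_snoc, List.length_append, List.length_singleton, Nat.bit_val, pow_succ]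
    have : (φ c).toNat ≤ 1 := Bool.toNat_le _
    omega

theorem val_testBit (φ : Option Bool → Bool) (w : List (Option Bool)) (k : ℕ)
    (hk : k < w.length) :
    (val φ w).testBit k = φ (w.getI (w.length - 1 - k)) := by
  induction w using List.reverseRecOn generalizing k with
  | nil => simp at hk
  | append_singleton w c ih =>
    rw [val_snoc]
    rw [List.length_append, List.length_singleton] at hk ⊢
    cases k with
    | zero =>
      rw [Nat.testBit_bit_zero]
      congr 1
      rw [List.getI_append_right _ _ _ (by omega)]
      simp [List.getI]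
    | succ k =>
      rw [Nat.testBit_bit_succ, ih k (by omega)]
      congr 1
      rw [List.getI_append _ _ _ (by omega)]
      congr 1
      omega

theorem val_testBit_ge (φ : Option Bool → Bool) (w : List (Option Bool)) (k : ℕ)
    (hk : w.length ≤ k) : (val φ w).testBit k = false := by
  apply Nat.testBit_lt_two_pow
  exact lt_of_lt_of_le (val_lt φ w) (Nat.pow_le_pow_right (by norm_num) hk)

theorem val_true (w : List (Option Bool)) : val (fun _ => true) w = 2 ^ w.length - 1 := by
  induction w using List.reverseRecOn with
  | nil => simp [val_nil]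
  | append_singleton w c ih =>
    rw [val_snoc, ih, List.length_append, List.length_singleton, Nat.bit_val, pow_succ]
    have := Nat.one_le_two_pow (n := w.length)
    simp only [Bool.toNat_true]
    omega

/-- binary digits are unique -/
theorem bits_unique (B : ℕ) (u : Fin B → ℕ) (hu : ∀ k, u k ≤ 1) (U : ℕ)
    (h : ∑ k, u k * 2 ^ (k : ℕ) = U) (k : Fin B) : u k = (U.testBit k).toNat := by
  induction B generalizing U with
  | zero => exact k.elim0
  | succ B ih =>
    rw [Fin.sum_univ_succ] at h
    simp only [Fin.val_zero, pow_zero, mul_one, Fin.val_succ, pow_succ] at h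
    have h1 : ∑ i : Fin B, u i.succ * (2 ^ (i : ℕ) * 2) = 2 * ∑ i : Fin B, u i.succ * 2 ^ (i : ℕ) := by
      rw [mul_sum]
      exact sum_congr rfl fun i _ => by ring
    rw [h1] at h
    set S := ∑ i : Fin B, u i.succ * 2 ^ (i : ℕ) with hS
    have h0 := hu 0
    refine Fin.cases ?_ (fun k => ?_) k
    · have : U % 2 = u 0 := by omega
      rw [Fin.val_zero, Nat.testBit_zero, this]
      interval_cases u 0 <;> simp
    · have h2 : U / 2 = S := by omega
      rw [Fin.val_succ, Nat.testBit_succ, h2]
      exact ih (fun k => u k.succ) (fun k => hu _) S rfl k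

theorem bits_sum (B : ℕ) (U : ℕ) (hU : U < 2 ^ B) :
    ∑ k : Fin B, (U.testBit k).toNat * 2 ^ (k : ℕ) = U := by
  induction B generalizing U with
  | zero =>
    have : U = 0 := by simpa using hU
    simp [this]
  | succ B ih =>
    rw [Fin.sum_univ_succ]
    simp only [Fin.val_zero, pow_zero, mul_one, Fin.val_succ, pow_succ, Nat.testBit_succ]
    have h1 : ∑ i : Fin B, ((U / 2).testBit i).toNat * (2 ^ (i : ℕ) * 2) =
        2 * ∑ i : Fin B, ((U / 2).testBit i).toNat * 2 ^ (i : ℕ) := by
      rw [mul_sum]
      exact sum_congr rfl fun i _ => by ring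
    rw [h1, ih (U / 2) (by rw [pow_succ] at hU; omega), Nat.testBit_zero]
    rcases Nat.mod_two_eq_zero_or_one U with h | h
    · simp [h]; omega
    · simp [h]; omega

end Pool.Agent.DPoly
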