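import Pool.Agent.DPoly.Tm
import Pool.Agent.DPoly.Val
import Pool.Agent.DPoly.Csp

/-!
# The tableau of a nondeterministic machine as a constraint system
-/

namespace Pool.Agent.DPoly

open Turing Finset

section tab

variable {Γ Λ : Type} [Inhabited Γ] [Inhabited Λ]

/-- Contents of a cell, together with a choice bit. -/
abbrev Cell (Γ Λ : Type) : Type := (Γ × Option Λ) × Bool

/-- Content of a cell of the first row, from two labels. -/
def lab (enc : Option Bool → Γ) (y y' : ℕ) : Γ × Option Λ :=
  (if y = 0 then default else enc (if y = 2 then some true else if y = 3 then none else some false),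
    if y ≠ 0 ∧ y' = 0 then some default else none)

/-- Halted and accepting. -/
def accC (M : Bool → TM0.Machine Γ Λ) (acc : Λ → Prop) (c : Γ × Option Λ) : Prop :=
  ∃ q, c.2 = some q ∧ (∀ b, M b q c.1 = none) ∧ acc q

/-- The local constraints. -/
def rho {κ : ℕ} (D : Fin κ → Cell Γ Λ) (M : Bool → TM0.Machine Γ Λ) (enc : Option Bool → Γ)
    (acc : Λ → Prop) (σ : Fin 5 → Fin κ) : Prop :=
  if (σ 0 : ℕ) = 0 then (D (σ 1)).1 = caN M (D (σ 2)) (D (σ 3)) (D (σ 4))
  else if (σ 0 : ℕ) = 1 then (D (σ 1)).1 = (default, none)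
  else if (σ 0 : ℕ) = 2 then (D (σ 1)).1 = lab enc (σ 2) (σ 3)
  else if (σ 0 : ℕ) = 3 then (σ 1 : ℕ) = 0 ∨ ((σ 1 : ℕ) = 1 ∧ accC M acc (D (σ 2)).1)
  else if (σ 0 : ℕ) = 4 then True
  else if (σ 0 : ℕ) = 5 then (σ 1 : ℕ) = if (σ 2 : ℕ) = 2 then 1 else 0
  else if (σ 0 : ℕ) = 6 then (σ 1 : ℕ) = if (σ 2 : ℕ) = 3 then 1 else 0
  else (σ 1 : ℕ) = if (σ 2 : ℕ) = 0 then 0 else 1

/-- The variables. -/
abbrev TI (T B : ℕ) : Type := (Fin (T + 1) × Fin (B + T + 2)) ⊕ (Fin (B + T + 2) ⊕ (Fin 4 × Fin B))

/-- The cell `(t, x)`. -/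
def cellI (T B t x : ℕ) : TI T B :=
  .inl (⟨min t T, by omega⟩, ⟨min x (B + T + 1), by omega⟩)

/-- The label at place `k`. -/
def lblI (T B k : ℕ) : TI T B := if h : k < B then .inr (.inr (0, ⟨k, h⟩)) else cellI T B 0 0

theorem cellI_eq (T B : ℕ) (t : Fin (T + 1)) (x : Fin (B + T + 2)) :
    cellI T B t x = .inl (t, x) := by
  unfold cellI
  congr 2
  · exact Fin.ext (by simp only; omega)
  · exact Fin.ext (by simp only; omega)

theorem lblI_eq (T B : ℕ) (k : Fin B) : lblI T B k = .inr (.inr (0, k)) := by
  unfold lblI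
  rw [dif_pos k.2]

/-- The code of the constraint at a variable. -/
def tmCode (T B : ℕ) : TI T B → Fin 8
  | .inl (t, x) => if x.val = 0 ∨ x.val = B + T + 1 ∨ (t.val = 0 ∧ B ≤ x.val) then 1
      else if t.val = 0 then 2 else 0
  | .inr (.inl _) => 3
  | .inr (.inr (s, _)) => ⟨4 + s.val, by omega⟩

/-- The neighbours. -/
def tmNb (T B : ℕ) (j : Fin 3) : TI T B → TI T B
  | .inl (t, x) => if t.val = 0 then lblI T B (B - 1 - x.val + j.val)
      else cellI T B (t.val - 1) (x.val - 1 + j.val)
  | .inr (.inl x) => cellI T B T x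
  | .inr (.inr (_, k)) => .inr (.inr (0, k))

/-- The weights. -/
def tmWt (T B : ℕ) (r : Fin 4) : TI T B → ℕ
  | .inl _ => 0
  | .inr (.inl _) => if r = 3 then 1 else 0
  | .inr (.inr (s, k)) => if r.val + 1 = s.val then 2 ^ k.val else 0

/-- The constraint system. -/
def tmCsp {κ : ℕ} (hκ : 8 ≤ κ) (T B : ℕ) : Csp κ 4 where
  ι := TI T B
  fin := inferInstance
  dec := inferInstance
  code i := Fin.castLE hκ (tmCode T B i)
  nb := tmNb T B
  wt := tmWt T B

/-- The read-outs of a word. -/
def ro (w : List (Option Bool)) : Fin 4 → ℕ :=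
  ![val (fun c => decide (c = some true)) w, val (fun c => decide (c = none)) w,
    val (fun _ => true) w, 1]

theorem tm_sum (T B : ℕ) (z : TI T B → ℕ) (r : Fin 4) :
    ∑ i, z i * tmWt T B r i = if h : r = 3 then ∑ x, z (.inr (.inl x)) else
      ∑ k : Fin B, z (.inr (.inr (⟨r.val + 1, by
        have := r.2
        have : r.val ≠ 3 := fun h' => h (Fin.ext h')
        omega⟩, k))) * 2 ^ (k : ℕ) := by
  classical
  rw [Fintype.sum_sum_type, Fintype.sum_sum_type]
  have h0 : ∑ i, z (.inl i) * tmWt T B r (.inl i) = 0 := sum_eq_zero fun i _ => by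
    simp [tmWt]
  rw [h0, zero_add, Fintype.sum_prod_type]
  by_cases h : r = 3
  · rw [dif_pos h]
    subst h
    have h1 : ∑ s : Fin 4, ∑ k : Fin B, z (.inr (.inr (s, k))) * tmWt T B 3 (.inr (.inr (s, k))) = 0 := by
      refine sum_eq_zero fun s _ => sum_eq_zero fun k _ => ?_
      have : ¬ ((3 : Fin 4).val + 1 = s.val) := by
        have := s.2
        change ¬ (3 + 1 = s.val)
        omega
      simp only [tmWt, if_neg this, mul_zero]
    rw [h1, add_zero]
    exact sum_congr rfl fun x _ => by simp [tmWt]
  · rw [dif_neg h]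
    have h1 : ∑ x, z (.inr (.inl x)) * tmWt T B r (.inr (.inl x)) = 0 :=
      sum_eq_zero fun x _ => by simp [tmWt, h]
    have h2 : r.val + 1 < 4 := by
      have := r.2
      have : r.val ≠ 3 := fun h' => h (Fin.ext h')
      omega
    rw [h1, zero_add, sum_eq_single (⟨r.val + 1, h2⟩ : Fin 4)]
    · exact sum_congr rfl fun k _ => by simp [tmWt]
    · intro s _ hs
      refine sum_eq_zero fun k _ => ?_
      have : ¬ (r.val + 1 = s.val) := fun h' => hs (Fin.ext h'.symm)
      simp only [tmWt, if_neg this, mul_zero]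
    · intro h'; exact absurd (mem_univ _) h'

/-- bits of the read-outs -/
theorem ro_testBit {w : List (Option Bool)} {k : ℕ} (hk : k < w.length) :
    ((ro w 0).testBit k = true ↔ w.getI (w.length - 1 - k) = some true) ∧
    ((ro w 1).testBit k = true ↔ w.getI (w.length - 1 - k) = none) ∧
    (ro w 2).testBit k = true := by
  refine ⟨?_, ?_, ?_⟩
  · change (val _ w).testBit k = true ↔ _
    rw [val_testBit _ _ _ hk, decide_eq_true_iff]
  · change (val _ w).testBit k = true ↔ _
    rw [val_testBit _ _ _ hk, decide_eq_true_iff]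
  · change (val _ w).testBit k = true
    rw [val_testBit _ _ _ hk]

theorem ro_testBit_ge {w : List (Option Bool)} {k : ℕ} (hk : w.length ≤ k) :
    (ro w 0).testBit k = false ∧ (ro w 1).testBit k = false ∧ (ro w 2).testBit k = false :=
  ⟨val_testBit_ge _ _ _ hk, val_testBit_ge _ _ _ hk, val_testBit_ge _ _ _ hk⟩

/-- symbol from the bits -/
theorem lab_eq (enc : Option Bool → Γ) {w : List (Option Bool)} {y y' k : ℕ}
    (h0 : (if y = 2 then 1 else 0) = ((ro w 0).testBit k).toNat)
    (h1 : (if y = 3 then 1 else 0) = ((ro w 1).testBit k).toNat)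
    (h2 : (if y = 0 then 0 else 1) = ((ro w 2).testBit k).toNat)
    (h2' : (if y' = 0 then 0 else 1) = ((ro w 2).testBit (k + 1)).toNat) :
    lab enc y y' = if k < w.length then
      (enc (w.getI (w.length - 1 - k)), if k + 1 = w.length then some (default : Λ) else none)
      else (default, none) := by
  unfold lab
  by_cases hk : k < w.length
  · obtain ⟨b0, b1, b2⟩ := ro_testBit hk
    rw [if_pos hk]
    rw [b2] at h2
    have hy : y ≠ 0 := by
      intro h; rw [if_pos h] at h2; simp at h2
    rw [if_neg hy]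
    congr 1
    · congr 1
      rcases hw : w.getI (w.length - 1 - k) with _ | b
      · have hb1 : (ro w 1).testBit k = true := b1.2 hw
        rw [hb1] at h1
        have h3 : y = 3 := by
          by_contra h; rw [if_neg h] at h1; simp at h1
        simp [h3]
      · have hb1 : (ro w 1).testBit k = false := by
          rw [Bool.eq_false_iff]
          intro h
          rw [b1.1 h] at hw
          simp at hw
        rw [hb1] at h1
        have h3 : y ≠ 3 := by
          intro h; rw [if_pos h] at h1; simp at h1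
        cases b with
        | true =>
          rw [b0.2 hw] at h0
          have h4 : y = 2 := by
            by_contra h; rw [if_neg h] at h0; simp at h0
          simp [h4]
        | false =>
          have hb0 : (ro w 0).testBit k = false := by
            rw [Bool.eq_false_iff]
            intro h
            rw [b0.1 h] at hw
            simp at hw
          rw [hb0] at h0
          have h4 : y ≠ 2 := by
            intro h; rw [if_pos h] at h0; simp at h0
          simp [h3, h4]
    · by_cases hk' : k + 1 < w.length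
      · rw [(ro_testBit hk').2.2] at h2'
        have hy' : y' ≠ 0 := by
          intro h; rw [if_pos h] at h2'; simp at h2'
        rw [if_neg (by tauto), if_neg (by omega)]
      · rw [(ro_testBit_ge (not_lt.1 hk')).2.2] at h2'
        have hy' : y' = 0 := by
          by_contra h; rw [if_neg h] at h2'; simp at h2'
        rw [if_pos ⟨hy, hy'⟩, if_pos (by omega)]
  · rw [(ro_testBit_ge (not_lt.1 hk)).2.2] at h2
    have hy : y = 0 := by
      by_contra h; rw [if_neg h] at h2; simp at h2
    rw [if_neg hk, if_pos hy, if_neg (by tauto)]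

/-- the content of a cell of the first row -/
theorem row_zero (M : Bool → TM0.Machine Γ Λ) (enc : Option Bool → Γ) {w : List (Option Bool)}
    (hw : w ≠ []) (b : ℕ → Bool) {k B : ℕ} (hk : k < B) (hB : w.length < B) :
    cont (run M (w.map enc) b 0) (((B - 1 - k : ℕ) : ℤ) - (B - w.length : ℕ)) =
      if k < w.length then
      (enc (w.getI (w.length - 1 - k)), if k + 1 = w.length then some (default : Λ) else none)
      else (default, none) := by
  have hl : w.map enc ≠ [] := by simpa using hw
  by_cases h : k < w.length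
  · rw [if_pos h]
    have e : (((B - 1 - k : ℕ) : ℤ) - (B - w.length : ℕ)) = ((w.length - 1 - k : ℕ) : ℤ) := by
      omega
    rw [e, cont_zero]
    have e1 : (w.map enc).getI (w.length - 1 - k) = enc (w.getI (w.length - 1 - k)) := by
      rw [List.getI_eq_getElem _ (by rw [List.length_map]; omega), List.getElem_map,
        List.getI_eq_getElem _ (by omega)]
    rw [e1]
    congr 1
    by_cases h1 : k + 1 = w.length
    · rw [if_pos h1, if_pos (by omega)]
    · rw [if_neg h1, if_neg (by omega)]
  · rw [if_neg h]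
    apply cont_zero_neg
    omega

end tab

end Pool.Agent.DPoly
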