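import Pool.Agent.DPoly.Tab

/-!
# The constraints of the tableau
-/

namespace Pool.Agent.DPoly

open Turing Finset

section tab

variable {Γ Λ : Type} [Inhabited Γ] [Inhabited Λ] {κ : ℕ} (hκ : 8 ≤ κ) (D : Fin κ → Cell Γ Λ)
  (M : Bool → TM0.Machine Γ Λ) (enc : Option Bool → Γ) (acc : Λ → Prop)

/-- The constraints in readable form. -/
structure Cons (T B : ℕ) (z : TI T B → Fin κ) : Prop where
  a : ∀ t ≤ T, ∀ x ≤ B + T + 1, (x = 0 ∨ x = B + T + 1 ∨ (t = 0 ∧ B ≤ x)) →
    (D (z (cellI T B t x))).1 = (default, none)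
  b : ∀ x, 0 < x → x < B → (D (z (cellI T B 0 x))).1 =
    lab enc (z (lblI T B (B - 1 - x))) (z (lblI T B (B - 1 - x + 1)))
  c : ∀ t < T, ∀ x, 0 < x → x < B + T + 1 → (D (z (cellI T B (t + 1) x))).1 =
    caN M (D (z (cellI T B t (x - 1)))) (D (z (cellI T B t x))) (D (z (cellI T B t (x + 1))))
  e : ∀ x : Fin (B + T + 2), (z (.inr (.inl x)) : ℕ) = 0 ∨
    ((z (.inr (.inl x)) : ℕ) = 1 ∧ accC M acc (D (z (cellI T B T x))).1)
  f1 : ∀ k : Fin B, (z (.inr (.inr (1, k))) : ℕ) = if (z (.inr (.inr (0, k))) : ℕ) = 2 then 1 else 0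
  f2 : ∀ k : Fin B, (z (.inr (.inr (2, k))) : ℕ) = if (z (.inr (.inr (0, k))) : ℕ) = 3 then 1 else 0
  f3 : ∀ k : Fin B, (z (.inr (.inr (3, k))) : ℕ) = if (z (.inr (.inr (0, k))) : ℕ) = 0 then 0 else 1

theorem cons_iff (T B : ℕ) (z : TI T B → Fin κ) :
    (∀ i, rho D M enc acc ![(tmCsp hκ T B).code i, z i, z ((tmCsp hκ T B).nb 0 i),
      z ((tmCsp hκ T B).nb 1 i), z ((tmCsp hκ T B).nb 2 i)]) ↔ Cons D M enc acc T B z := by
  have hcode : ∀ i, (((tmCsp hκ T B).code i : Fin κ) : ℕ) = (tmCode T B i : ℕ) := fun i => rfl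
  constructor
  · intro h
    refine ⟨?_, ?_, ?_, ?_, ?_, ?_, ?_⟩
    · intro t ht x hx hcond
      have h1 := h (cellI T B t x)
      have e1 : cellI T B t x = .inl (⟨t, by omega⟩, ⟨x, by omega⟩) :=
        cellI_eq T B ⟨t, by omega⟩ ⟨x, by omega⟩
      have e2 : ((tmCsp hκ T B).code (cellI T B t x) : ℕ) = 1 := by
        rw [hcode, e1]
        simp only [tmCode]
        rw [if_pos hcond]
        rfl
      simpa [rho, e2] using h1
    · intro x hx0 hxB
      have h1 := h (cellI T B 0 x)
      have e1 : cellI T B 0 x = .inl (⟨0, by omega⟩, ⟨x, by omega⟩) :=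
        cellI_eq T B ⟨0, by omega⟩ ⟨x, by omega⟩
      have e2 : ((tmCsp hκ T B).code (cellI T B 0 x) : ℕ) = 2 := by
        rw [hcode, e1]
        simp only [tmCode]
        rw [if_neg (by omega)]
        rfl
      have e3 : ∀ j : Fin 3, (tmCsp hκ T B).nb j (cellI T B 0 x) =
          lblI T B (B - 1 - x + j.val) := by
        intro j
        rw [e1]
        simp [tmCsp, tmNb]
      rw [e3, e3, e3] at h1
      simpa [rho, e2] using h1
    · intro t ht x hx0 hx
      have h1 := h (cellI T B (t + 1) x)
      have e1 : cellI T B (t + 1) x = .inl (⟨t + 1, by omega⟩, ⟨x, by omega⟩) :=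
        cellI_eq T B ⟨t + 1, by omega⟩ ⟨x, by omega⟩
      have e2 : ((tmCsp hκ T B).code (cellI T B (t + 1) x) : ℕ) = 0 := by
        rw [hcode, e1]
        simp only [tmCode]
        rw [if_neg (by omega), if_neg (by omega)]
        rfl
      have e3 : ∀ j : Fin 3, (tmCsp hκ T B).nb j (cellI T B (t + 1) x) =
          cellI T B t (x - 1 + j.val) := by
        intro j
        rw [e1]
        simp [tmCsp, tmNb]
      rw [e3, e3, e3] at h1
      have e4 : x - 1 + (1 : Fin 3).val = x := by
        change x - 1 + 1 = x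
        omega
      have e5 : x - 1 + (2 : Fin 3).val = x + 1 := by
        change x - 1 + 2 = x + 1
        omega
      have e6 : x - 1 + (0 : Fin 3).val = x - 1 := rfl
      rw [e4, e5, e6] at h1
      simpa [rho, e2] using h1
    · intro x
      have h1 := h (.inr (.inl x))
      have e2 : ((tmCsp hκ T B).code (.inr (.inl x)) : ℕ) = 3 := rfl
      have e3 : ∀ j : Fin 3, (tmCsp hκ T B).nb j (.inr (.inl x)) = cellI T B T x := fun j => rfl
      rw [e3, e3, e3] at h1
      simpa [rho, e2] using h1
    · intro k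
      have h1 := h (.inr (.inr (1, k)))
      have e2 : ((tmCsp hκ T B).code (.inr (.inr (1, k))) : ℕ) = 5 := rfl
      have e3 : ∀ j : Fin 3, (tmCsp hκ T B).nb j (.inr (.inr (1, k))) = .inr (.inr (0, k)) :=
        fun j => rfl
      rw [e3, e3, e3] at h1
      simp [rho, e2] at h1
      exact h1
    · intro k
      have h1 := h (.inr (.inr (2, k)))
      have e2 : ((tmCsp hκ T B).code (.inr (.inr (2, k))) : ℕ) = 6 := rfl
      have e3 : ∀ j : Fin 3, (tmCsp hκ T B).nb j (.inr (.inr (2, k))) = .inr (.inr (0, k)) :=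
        fun j => rfl
      rw [e3, e3, e3] at h1
      simp [rho, e2] at h1
      exact h1
    · intro k
      have h1 := h (.inr (.inr (3, k)))
      have e2 : ((tmCsp hκ T B).code (.inr (.inr (3, k))) : ℕ) = 7 := rfl
      have e3 : ∀ j : Fin 3, (tmCsp hκ T B).nb j (.inr (.inr (3, k))) = .inr (.inr (0, k)) :=
        fun j => rfl
      rw [e3, e3, e3] at h1
      simp [rho, e2] at h1
      exact h1
  · rintro ⟨ha, hb, hc, he, hf1, hf2, hf3⟩ i
    rcases i with ⟨t, x⟩ | x | ⟨s, k⟩
    · by_cases hcond : x.val = 0 ∨ x.val = B + T + 1 ∨ (t.val = 0 ∧ B ≤ x.val)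
      · have e2 : ((tmCsp hκ T B).code (.inl (t, x)) : ℕ) = 1 := by
          rw [hcode]
          simp only [tmCode]
          rw [if_pos hcond]
          rfl
        have h1 := ha t (by omega) x (by omega) hcond
        rw [cellI_eq] at h1
        simpa [rho, e2] using h1
      · by_cases ht : t.val = 0
        · have e2 : ((tmCsp hκ T B).code (.inl (t, x)) : ℕ) = 2 := by
            rw [hcode]
            simp only [tmCode]
            rw [if_neg hcond, if_pos ht]
            rfl
          have e3 : ∀ j : Fin 3, (tmCsp hκ T B).nb j (.inl (t, x)) =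
              lblI T B (B - 1 - x.val + j.val) := by
            intro j
            simp [tmCsp, tmNb, ht]
          have h1 := hb x (by omega) (by omega)
          rw [← ht, cellI_eq] at h1
          rw [e3, e3, e3]
          simpa [rho, e2] using h1
        · have e2 : ((tmCsp hκ T B).code (.inl (t, x)) : ℕ) = 0 := by
            rw [hcode]
            simp only [tmCode]
            rw [if_neg hcond, if_neg ht]
            rfl
          have e3 : ∀ j : Fin 3, (tmCsp hκ T B).nb j (.inl (t, x)) =
              cellI T B (t.val - 1) (x.val - 1 + j.val) := by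
            intro j
            simp [tmCsp, tmNb, ht]
          have h1 := hc (t.val - 1) (by omega) x (by omega) (by omega)
          rw [show t.val - 1 + 1 = t.val by omega, cellI_eq] at h1
          have e4 : x.val - 1 + (1 : Fin 3).val = x := by
            change x.val - 1 + 1 = x
            omega
          have e5 : x.val - 1 + (2 : Fin 3).val = x + 1 := by
            change x.val - 1 + 2 = x + 1
            omega
          have e6 : x.val - 1 + (0 : Fin 3).val = x - 1 := rfl
          rw [e3, e3, e3, e4, e5, e6]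
          simpa [rho, e2] using h1
    · have e2 : ((tmCsp hκ T B).code (.inr (.inl x)) : ℕ) = 3 := rfl
      have e3 : ∀ j : Fin 3, (tmCsp hκ T B).nb j (.inr (.inl x)) = cellI T B T x := fun j => rfl
      rw [e3, e3, e3]
      simpa [rho, e2] using he x
    · have e3 : ∀ j : Fin 3, (tmCsp hκ T B).nb j (.inr (.inr (s, k))) = .inr (.inr (0, k)) :=
        fun j => rfl
      rw [e3, e3, e3]
      fin_cases s
      · have e2 : ((tmCsp hκ T B).code (.inr (.inr (0, k))) : ℕ) = 4 := rfl
        simp [rho, e2]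
      · have e2 : ((tmCsp hκ T B).code (.inr (.inr (1, k))) : ℕ) = 5 := rfl
        simp [rho, e2]
        exact hf1 k
      · have e2 : ((tmCsp hκ T B).code (.inr (.inr (2, k))) : ℕ) = 6 := rfl
        simp [rho, e2]
        exact hf2 k
      · have e2 : ((tmCsp hκ T B).code (.inr (.inr (3, k))) : ℕ) = 7 := rfl
        simp [rho, e2]
        exact hf3 k

end tab

end Pool.Agent.DPoly
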