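import Mathlib

/-!
# Nondeterministic one-tape machines as cellular automata

A nondeterministic machine is a pair of deterministic Post-Turing machines (`Turing.TM0`) with the same
states; in each step one of the two transition functions is applied.
-/

namespace Pool.Agent.DPoly

open Turing

variable {Γ Λ : Type} [Inhabited Γ] [Inhabited Λ]

/-- The state entering a cell from its left neighbour. -/
def fromL (M : Bool → TM0.Machine Γ Λ) : (Γ × Option Λ) × Bool → Option Λ
  | ((a, some q), b) => match M b q a with
    | some (q', .move .right) => some q'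
    | _ => none
  | ((_, none), _) => none

/-- The state entering a cell from its right neighbour. -/
def fromR (M : Bool → TM0.Machine Γ Λ) : (Γ × Option Λ) × Bool → Option Λ
  | ((a, some q), b) => match M b q a with
    | some (q', .move .left) => some q'
    | _ => none
  | ((_, none), _) => none

/-- The local rule. -/
def caN (M : Bool → TM0.Machine Γ Λ) (l c r : (Γ × Option Λ) × Bool) : Γ × Option Λ :=
  match c with
  | ((a, some q), b) => match M b q a with
    | none => (a, some q)
    | some (q', .write b') => (b', some q')
    | some (_, .move _) => (a, none)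
  | ((a, none), _) => (a, (fromL M l).orElse fun _ => fromR M r)

/-- One step of the machine, together with the position of the head; nothing happens if the
machine cannot move. -/
def next (M : Bool → TM0.Machine Γ Λ) (b : Bool) (p : TM0.Cfg Γ Λ × ℤ) : TM0.Cfg Γ Λ × ℤ :=
  match M b p.1.q p.1.Tape.head with
  | none => p
  | some (q', .move .left) => (⟨q', p.1.Tape.move .left⟩, p.2 - 1)
  | some (q', .move .right) => (⟨q', p.1.Tape.move .right⟩, p.2 + 1)
  | some (q', .write b') => (⟨q', p.1.Tape.write b'⟩, p.2)

/-- The content of a cell. -/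
def cont (p : TM0.Cfg Γ Λ × ℤ) (j : ℤ) : Γ × Option Λ :=
  (p.1.Tape.nth (j - p.2), if j = p.2 then some p.1.q else none)

theorem cont_next (M : Bool → TM0.Machine Γ Λ) (p : TM0.Cfg Γ Λ × ℤ) (β : ℤ → Bool) (j : ℤ) :
    cont (next M (β p.2) p) j =
      caN M (cont p (j - 1), β (j - 1)) (cont p j, β j) (cont p (j + 1), β (j + 1)) := by
  obtain ⟨⟨q, T⟩, h⟩ := p
  by_cases hj : j = h
  · subst hj
    rcases hM : M (β j) q T.head with _ | ⟨q', _ | b⟩
    · simp [next, cont, caN, hM]
    · rename_i d
      rcases d with _ | _
      · simp only [next, cont, caN, hM, Tape.move_left_nth, sub_self, Tape.nth_zero, if_true]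
        rw [if_neg (by omega)]
        simp
      · simp [next, cont, caN, hM]
    · simp [next, cont, caN, hM, Tape.write]
  · have hj' : j - h ≠ 0 := sub_ne_zero.2 hj
    have hc : cont (⟨q, T⟩, h) j = (T.nth (j - h), none) := by simp [cont, hj]
    rw [hc]
    simp only [caN]
    have hl : fromL M (cont (⟨q, T⟩, h) (j - 1), β (j - 1)) = if j - 1 = h then
        (match M (β h) q T.head with
          | some (q', .move .right) => some q'
          | _ => none) else none := by
      by_cases hjl : j - 1 = h
      · simp [cont, hjl, fromL]
      · simp [cont, hjl, fromL]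
    have hr : fromR M (cont (⟨q, T⟩, h) (j + 1), β (j + 1)) = if j + 1 = h then
        (match M (β h) q T.head with
          | some (q', .move .left) => some q'
          | _ => none) else none := by
      by_cases hjl : j + 1 = h
      · simp [cont, hjl, fromR]
      · simp [cont, hjl, fromR]
    rw [hl, hr]
    rcases hM : M (β h) q T.head with _ | ⟨q', _ | b⟩
    · simp [next, cont, hM, hj]
    · rename_i d
      rcases d with _ | _
      · simp only [next, cont, hM, Tape.move_left_nth]
        have e1 : j - (h - 1) - 1 = j - h := by ring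
        rw [e1]
        by_cases hjr : j + 1 = h
        · have : j = h - 1 := by omega
          simp [this]
        · have : ¬ j = h - 1 := by omega
          simp [this, hjr]
      · simp only [next, cont, hM, Tape.move_right_nth]
        have e1 : j - (h + 1) + 1 = j - h := by ring
        rw [e1]
        by_cases hjr : j - 1 = h
        · have : j = h + 1 := by omega
          simp [this]
        · have : ¬ j = h + 1 := by omega
          simp [this, hjr]
    · simp [next, cont, hM, hj, hj']

/-- The configuration and head position after `t` steps with the choices `b`. -/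
def run (M : Bool → TM0.Machine Γ Λ) (l : List Γ) (b : ℕ → Bool) : ℕ → TM0.Cfg Γ Λ × ℤ
  | 0 => (TM0.init l, 0)
  | t + 1 => next M (b t) (run M l b t)

theorem head_le (M : Bool → TM0.Machine Γ Λ) (l : List Γ) (b : ℕ → Bool) (t : ℕ) :
    |(run M l b t).2| ≤ t := by
  induction t with
  | zero => simp [run]
  | succ t ih =>
    rw [run]
    have : |(next M (b t) (run M l b t)).2| ≤ |(run M l b t).2| + 1 := by
      unfold next
      rcases hM : M (b t) (run M l b t).1.q (run M l b t).1.Tape.head with _ | ⟨q', _ | b'⟩
      · simp
      · rename_i d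
        rcases d with _ | _
        · simp only
          have := abs_sub (run M l b t).2 1
          simpa using this
        · simp only
          have := abs_add_le (run M l b t).2 1
          simpa using this
      · simp
    push_cast
    linarith

/-- The content of the tape at the beginning. -/
theorem cont_zero (M : Bool → TM0.Machine Γ Λ) (l : List Γ) (b : ℕ → Bool) (j : ℕ) :
    cont (run M l b 0) j = (l.getI j, if j = 0 then some default else none) := by
  unfold cont
  rw [Prod.mk.injEq]
  constructor
  · simp only [run, sub_zero, TM0.init, Tape.mk₁, Tape.mk₂]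
    rw [Tape.mk'_nth_nat, ListBlank.nth_mk]
  · simp [run, TM0.init]

theorem cont_zero_neg (M : Bool → TM0.Machine Γ Λ) (l : List Γ) (b : ℕ → Bool) (j : ℤ)
    (hj : j < 0) : cont (run M l b 0) j = (default, none) := by
  unfold cont
  rw [Prod.mk.injEq]
  constructor
  · simp only [run, sub_zero, TM0.init, Tape.mk₁, Tape.mk₂]
    obtain ⟨n, rfl⟩ := Int.eq_negSucc_of_lt_zero hj
    simp [Tape.mk', Tape.nth, ListBlank.nth_mk]
  · simp [run, hj.ne]

/-- Far away cells are blank. -/
theorem cont_far (M : Bool → TM0.Machine Γ Λ) (l : List Γ) (hl : l ≠ []) (b : ℕ → Bool) (t : ℕ)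
    (j : ℤ) (hj : j < -t ∨ (l.length : ℤ) + t ≤ j) :
    cont (run M l b t) j = (default, none) := by
  induction t generalizing j with
  | zero =>
    by_cases h0 : j < 0
    · exact cont_zero_neg M l b j h0
    · have h1 : 1 ≤ l.length := List.length_pos_iff.2 hl
      obtain ⟨n, rfl⟩ := Int.eq_ofNat_of_zero_le (not_lt.1 h0)
      have h2 : l.length ≤ n := by
        rcases hj with h | h
        · exact absurd h (by simp)
        · push_cast at h; omega
      rw [cont_zero, if_neg (by omega), List.getI_eq_default]
      exact h2
  | succ t ih =>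
    rw [run]
    have h := cont_next M (run M l b t) (fun _ => b t) j
    rw [h, ih j (by push_cast at hj; omega), ih (j - 1) (by push_cast at hj; omega),
      ih (j + 1) (by push_cast at hj; omega)]
    rfl

/-! ## Computations -/

/-- `c'` can be reached from `c` in exactly `t` steps. -/
def Reaches (M : Bool → TM0.Machine Γ Λ) : ℕ → TM0.Cfg Γ Λ → TM0.Cfg Γ Λ → Prop
  | 0, c, c' => c = c'
  | t + 1, c, c' => ∃ c'', Reaches M t c c'' ∧ ∃ b, TM0.step (M b) c'' = some c'

/-- The configuration is halted. -/
def Halted (M : Bool → TM0.Machine Γ Λ) (c : TM0.Cfg Γ Λ) : Prop :=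
  ∀ b, TM0.step (M b) c = none

theorem next_of_step (M : Bool → TM0.Machine Γ Λ) (b : Bool) (p : TM0.Cfg Γ Λ × ℤ)
    {c : TM0.Cfg Γ Λ} (h : TM0.step (M b) p.1 = some c) : (next M b p).1 = c := by
  obtain ⟨⟨q, T⟩, z⟩ := p
  simp only [TM0.step, Option.map_eq_some_iff] at h
  obtain ⟨⟨q', a⟩, hM, hc'⟩ := h
  have hM' : M b q T.head = some (q', a) := hM
  unfold next
  rcases a with d | b'
  · rcases d with _ | _
    · simp only [hM']
      exact hc'
    · simp only [hM']
      exact hc'
  · simp only [hM']
    exact hc'

theorem next_of_none (M : Bool → TM0.Machine Γ Λ) (b : Bool) (p : TM0.Cfg Γ Λ × ℤ)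
    (h : TM0.step (M b) p.1 = none) : next M b p = p := by
  obtain ⟨⟨q, T⟩, z⟩ := p
  simp only [TM0.step, Option.map_eq_none_iff] at h
  unfold next
  have hM' : M b q T.head = none := h
  simp only [hM']

theorem step_of_halted (M : Bool → TM0.Machine Γ Λ) (c : TM0.Cfg Γ Λ) :
    Halted M c ↔ ∀ b, M b c.q c.Tape.head = none := by
  unfold Halted
  refine forall_congr' fun b => ?_
  obtain ⟨q, T⟩ := c
  simp [TM0.step]

/-- Runs of length `T` and computations of length at most `T`. -/
theorem run_iff (M : Bool → TM0.Machine Γ Λ) (l : List Γ) (T : ℕ) (A : TM0.Cfg Γ Λ → Prop) :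
    (∃ b, Halted M (run M l b T).1 ∧ A (run M l b T).1) ↔
      ∃ t ≤ T, ∃ c, Reaches M t (TM0.init l) c ∧ Halted M c ∧ A c := by
  constructor
  · rintro ⟨b, h1, h2⟩
    have key : ∀ t, ∃ t' ≤ t, Reaches M t' (TM0.init l) (run M l b t).1 := by
      intro t
      induction t with
      | zero => exact ⟨0, le_refl _, rfl⟩
      | succ t ih =>
        obtain ⟨t', h3, h4⟩ := ih
        rcases h5 : TM0.step (M (b t)) (run M l b t).1 with _ | c
        · refine ⟨t', by omega, ?_⟩
          rw [run, next_of_none M _ _ h5]
          exact h4
        · refine ⟨t' + 1, by omega, (run M l b t).1, h4, b t, ?_⟩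
          rw [run, next_of_step M _ _ h5, h5]
    obtain ⟨t, h3, h4⟩ := key T
    exact ⟨t, h3, _, h4, h1, h2⟩
  · rintro ⟨t, ht, c, h1, h2, h3⟩
    have key : ∀ t (c : TM0.Cfg Γ Λ), Reaches M t (TM0.init l) c →
        ∃ b, (run M l b t).1 = c := by
      intro t
      induction t with
      | zero => intro c h; exact ⟨fun _ => false, h⟩
      | succ t ih =>
        rintro c ⟨c'', h4, b0, h5⟩
        obtain ⟨b, hb⟩ := ih c'' h4
        refine ⟨fun s => if s = t then b0 else b s, ?_⟩
        have h6 : ∀ s ≤ t, run M l (fun s => if s = t then b0 else b s) s = run M l b s := by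
          intro s
          induction s with
          | zero => intro _; rfl
          | succ s ihs =>
            intro hs
            rw [run, run, ihs (by omega), if_neg (by omega)]
        rw [run, h6 t le_rfl, if_pos rfl]
        apply next_of_step
        rw [hb]
        exact h5
    obtain ⟨b, hb⟩ := key t c h1
    have h4 : ∀ s, (run M l b (t + s)).1 = c := by
      intro s
      induction s with
      | zero => exact hb
      | succ s ih =>
        rw [← add_assoc, run, next_of_none M _ _ (by rw [ih]; exact h2 _)]
        exact ih
    have h5 := h4 (T - t)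
    rw [show t + (T - t) = T by omega] at h5
    exact ⟨b, by rw [h5]; exact h2, by rw [h5]; exact h3⟩

end Pool.Agent.DPoly
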